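import Pool.Agent.W680.DS.Words

/-!
# The core argument: nothing in `p(E)` lives over one boundary point
-/

set_option autoImplicit false

open Filter Topology
open scoped ENNReal InnerProductSpace

namespace Pool.Agent.W680.DS

variable {H : Type*} [NormedAddCommGroup H] [InnerProductSpace ℂ H] [CompleteSpace H]

theorem exists_finiteRank_near {K : H →L[ℂ] H} (hK : IsCompactOperator K) {ε : ℝ} (hε : 0 < ε) :
    ∃ F : H →L[ℂ] H, IsFiniteRank F ∧ ‖K - F‖ ≤ ε := by
  have h1 : IsCompact (closure (K '' Metric.closedBall 0 1)) :=
    IsCompactOperator.isCompact_closure_image_closedBall (f := (K : H →ₗ[ℂ] H)) hK 1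
  obtain ⟨t, ht, hcov⟩ := Metric.totallyBounded_iff.1 h1.totallyBounded ε hε
  set V : Submodule ℂ H := Submodule.span ℂ t with hV
  have hfd : FiniteDimensional ℂ V := FiniteDimensional.span_of_finite ℂ ht
  refine ⟨V.starProjection * K, ?_, ?_⟩
  · apply IsFiniteRank.of_le (V := V)
    intro x
    exact Submodule.starProjection_apply_mem V (K x)
  · apply ContinuousLinearMap.opNorm_le_of_unit_norm (𝕜 := ℂ) hε.le
    intro x hx
    have h2 : K x ∈ closure (K '' Metric.closedBall 0 1) :=
      subset_closure ⟨x, by simp [hx], rfl⟩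
    obtain ⟨y, hy, hd⟩ := Set.mem_iUnion₂.1 (hcov h2)
    have hyV : V.starProjection y = y :=
      Submodule.starProjection_eq_self_iff.2 (Submodule.subset_span hy)
    have e : (K - V.starProjection * K) x = (K x - y) - V.starProjection (K x - y) := by
      rw [map_sub, hyV, sub_apply, mul_apply_eq_comp]
      simp
    rw [e]
    have h3 : ‖(K x - y) - V.starProjection (K x - y)‖ ≤ ‖K x - y‖ := by
      rw [← Submodule.starProjection_orthogonal_val]
      have := (Vᗮ.starProjection).le_opNorm (K x - y)
      exact this.trans (mul_le_of_le_one_left (norm_nonneg _) (Submodule.starProjection_norm_le _))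
    refine h3.trans ?_
    rw [Metric.mem_ball, dist_eq_norm] at hd
    exact hd.le

variable (b : HilbertBasis (List Bool) ℂ H)

theorem tendsto_psi_pow_compact {K : H →L[ℂ] H} (hK : IsCompactOperator K) :
    Tendsto (fun m => ‖(psi b ^ m) K‖) atTop (𝓝 0) := by
  rw [Metric.tendsto_atTop]
  intro ε hε
  obtain ⟨F, hF, h1⟩ := exists_finiteRank_near hK (show 0 < ε / 2 by linarith)
  obtain ⟨N, hN⟩ := (Metric.tendsto_atTop.1 (tendsto_psi_pow b hF.nn_lt_top)) (ε / 2) (by linarith)
  refine ⟨N, fun m hm => ?_⟩
  have h2 := hN m hm
  rw [Real.dist_eq, sub_zero, abs_of_nonneg (norm_nonneg _)] at h2 ⊢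
  have e : (psi b ^ m) K = (psi b ^ m) (K - F) + (psi b ^ m) F := by
    rw [← map_add, sub_add_cancel]
  rw [e]
  have h3 := norm_psi_pow_le b m (K - F)
  linarith [norm_add_le ((psi b ^ m) (K - F)) ((psi b ^ m) F)]

/-- the harmonic majorant -/
noncomputable def hm (n : ℕ) (u : List Bool) : ℝ :=
  if List.replicate n false <:+ u then 1
  else if u <:+ List.replicate n false then (1 / 2 : ℝ) ^ (n - u.length) else 0

theorem hm_nonneg (n : ℕ) (u : List Bool) : 0 ≤ hm n u := by
  unfold hm; split_ifs <;> positivity

theorem hm_harmonic (n : ℕ) (u : List Bool) :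
    hm n u = (hm n (false :: u) + hm n (true :: u)) / 2 := by
  by_cases h1 : List.replicate n false <:+ u
  · have h2 : ∀ i, List.replicate n false <:+ i :: u := fun i =>
      h1.trans (List.suffix_cons i u)
    unfold hm
    rw [if_pos h1, if_pos (h2 false), if_pos (h2 true)]; norm_num
  · by_cases h2 : u <:+ List.replicate n false
    · obtain ⟨k, hk⟩ : ∃ k, u = List.replicate k false := by
        refine ⟨u.length, List.eq_replicate_iff.2 ⟨rfl, fun x hx => ?_⟩⟩
        exact List.eq_of_mem_replicate (h2.mem hx)
      subst hk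
      have hkn : k < n := by
        by_contra hc
        apply h1
        refine ⟨List.replicate (k - n) false, ?_⟩
        rw [List.replicate_append_replicate]; congr 1; omega
      have h3 : ¬ (List.replicate n false <:+ true :: List.replicate k false) := by
        rw [List.suffix_cons_iff]
        rintro (h | h)
        · have : (true : Bool) ∈ List.replicate n false := by rw [h]; simp
          simpa using List.eq_of_mem_replicate this
        · exact h1 h
      have h4 : ¬ (true :: List.replicate k false <:+ List.replicate n false) := by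
        intro h
        have : (true : Bool) ∈ List.replicate n false := h.mem (by simp)
        simpa using List.eq_of_mem_replicate this
      have h5 : hm n (true :: List.replicate k false) = 0 := by
        unfold hm; rw [if_neg h3, if_neg h4]
      have h6 : hm n (false :: List.replicate k false) = (1 / 2 : ℝ) ^ (n - (k + 1)) := by
        rw [← List.replicate_succ]
        unfold hm
        by_cases hc : k + 1 = n
        · rw [hc, if_pos (List.suffix_rfl), Nat.sub_self, pow_zero]
        · rw [if_neg, if_pos, List.length_replicate]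
          · refine ⟨List.replicate (n - (k + 1)) false, ?_⟩
            rw [List.replicate_append_replicate]; congr 1; omega
          · intro h
            have := h.length_le
            simp at this; omega
      have h7 : hm n (List.replicate k false) = (1 / 2 : ℝ) ^ (n - k) := by
        unfold hm
        rw [if_neg h1, if_pos h2, List.length_replicate]
      rw [h5, h6, h7, add_zero, show n - k = (n - (k + 1)) + 1 by omega, pow_succ]
      ring
    · have h3 : ∀ i, ¬ (List.replicate n false <:+ i :: u) := by
        intro i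
        rw [List.suffix_cons_iff]
        rintro (h | h)
        · apply h2; rw [h]; exact List.suffix_cons i u
        · exact h1 h
      have h4 : ∀ i, ¬ (i :: u <:+ List.replicate n false) := fun i h =>
        h2 ((List.suffix_cons i u).trans h)
      unfold hm
      rw [if_neg h1, if_neg h2, if_neg (h3 _), if_neg (h3 _), if_neg (h4 _), if_neg (h4 _)]
      norm_num

theorem tendsto_hm (u : List Bool) : Tendsto (fun n => hm n u) atTop (𝓝 0) := by
  have h1 : Tendsto (fun n : ℕ => (1 / 2 : ℝ) ^ (n - u.length)) atTop (𝓝 0) :=
    (tendsto_pow_atTop_nhds_zero_of_lt_one (by norm_num) (by norm_num)).comp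
      (tendsto_sub_atTop_nat u.length)
  refine squeeze_zero' (Eventually.of_forall fun n => hm_nonneg n u) ?_ h1
  filter_upwards [eventually_gt_atTop u.length] with n hn
  unfold hm
  rw [if_neg]
  · split_ifs
    · exact le_rfl
    · positivity
  · intro h
    have := h.length_le
    simp at this; omega

theorem abs_inner_psi_pow_le {Z : H →L[ℂ] H} {C : ℝ} {n : ℕ}
    (h : ∀ u v : List Bool, ‖⟪b v, Z (b u)⟫_ℂ‖ ≤ C * hm n u) (m : ℕ) :
    ∀ u v : List Bool, ‖⟪b v, (psi b ^ m) Z (b u)⟫_ℂ‖ ≤ C * hm n u := by
  induction m with
  | zero => simpa using h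
  | succ m ih =>
    intro u v
    rw [pow_succ', Module.End.mul_apply, inner_psi, lop_basis, lop_basis, lop_basis, lop_basis,
      norm_mul]
    have h1 := ih (false :: u) (false :: v)
    have h2 := ih (true :: u) (true :: v)
    have h3 := norm_add_le ⟪b (false :: v), (psi b ^ m) Z (b (false :: u))⟫_ℂ
      ⟪b (true :: v), (psi b ^ m) Z (b (true :: u))⟫_ℂ
    have h4 : ‖(1 / 2 : ℂ)‖ = 1 / 2 := by norm_num
    rw [h4, hm_harmonic n u]
    linarith

/-- the projection onto the words ending with `n` times `false` -/
noncomputable def qop (n : ℕ) : H →L[ℂ] H :=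
  vop b (List.append_left_injective (List.replicate n false)) *
    star (vop b (List.append_left_injective (List.replicate n false)))

theorem qop_basis_of_suffix {n : ℕ} {u : List Bool} (h : List.replicate n false <:+ u) :
    qop b n (b u) = b u := by
  obtain ⟨t, rfl⟩ := h
  unfold qop
  rw [mul_apply_eq_comp, star_vop_basis b (List.append_left_injective (List.replicate n false)) t,
    vop_basis]

theorem qop_basis_of_not {n : ℕ} {u : List Bool} (h : ¬ List.replicate n false <:+ u) :
    qop b n (b u) = 0 := by
  unfold qop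
  rw [mul_apply_eq_comp, star_vop_basis_of_notMem, map_zero]
  rintro ⟨t, ht⟩
  exact h ⟨t, ht⟩

theorem norm_qop_le (n : ℕ) : ‖qop b n‖ ≤ 1 := by
  unfold qop
  have h1 := norm_vop_le b (List.append_left_injective (List.replicate n false))
  calc _ ≤ ‖vop b (List.append_left_injective (List.replicate n false))‖ *
        ‖star (vop b (List.append_left_injective (List.replicate n false)))‖ := norm_mul_le _ _
    _ ≤ 1 * 1 := by rw [norm_star]; gcongr
    _ = 1 := one_mul 1

theorem isCompactOperator_psi {X : H →L[ℂ] H} (hX : IsCompactOperator X) :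
    IsCompactOperator (psi b X) := by
  have h1 : ∀ i, star (lop b i) * X * lop b i ∈ compactOperator (RingHom.id ℂ) H H := by
    intro i
    have h2 := (hX.comp_clm (lop b i)).clm_comp (star (lop b i))
    exact h2
  have h3 : psi b X ∈ compactOperator (RingHom.id ℂ) H H := by
    rw [psi_apply]
    exact Submodule.smul_mem _ _ (Submodule.add_mem _ (h1 _) (h1 _))
  exact h3

theorem isCompactOperator_psi_pow {X : H →L[ℂ] H} (hX : IsCompactOperator X) (m : ℕ) :
    IsCompactOperator ((psi b ^ m) X) := by
  induction m with
  | zero => simpa using hX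
  | succ m ih =>
    rw [pow_succ', Module.End.mul_apply]
    exact isCompactOperator_psi b ih

/-- **Key theorem.** If `X - Ψ(X)` is in the ideal and `X` lives over the boundary point
`…000`, then `X` is compact. -/
theorem compact_of_fibre {X : H →L[ℂ] H} (hE : X - psi b X ∈ (mac : Submodule ℂ (H →L[ℂ] H)))
    (hQ : ∀ n, IsCompactOperator (X * qop b n - X)) : IsCompactOperator X := by
  set Y := X - psi b X with hY
  have hs : Summable fun m => (psi b ^ m) Y := (summable_psi_pow b (nn_lt_top_of_mem hE)).of_norm
  set G := ∑' m, (psi b ^ m) Y with hG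
  have hG1 : Tendsto (fun M => ∑ m ∈ Finset.range M, (psi b ^ m) Y) atTop (𝓝 G) :=
    hs.hasSum.tendsto_sum_nat
  have hGc : IsCompactOperator G := by
    refine isCompactOperator_of_tendsto hG1 (Eventually.of_forall fun M => ?_)
    have : ∑ m ∈ Finset.range M, (psi b ^ m) Y ∈ compactOperator (RingHom.id ℂ) H H :=
      Submodule.sum_mem _ fun m _ => isCompactOperator_psi_pow b (compact_of_mem_mac hE) m
    exact this
  have hlim : Tendsto (fun M => (psi b ^ M) X) atTop (𝓝 (X - G)) := by
    have h1 : Tendsto (fun M => X - ∑ m ∈ Finset.range M, (psi b ^ m) Y) atTop (𝓝 (X - G)) :=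
      hG1.const_sub X
    refine h1.congr fun M => ?_
    rw [← sub_psi_pow]; abel
  have hzero : X - G = 0 := by
    apply ext_basis b
    intro u
    apply ext_vec b
    intro v
    rw [show (0 : H →L[ℂ] H) (b u) = 0 from rfl, inner_zero_right]
    rw [← norm_eq_zero]
    apply le_antisymm _ (norm_nonneg _)
    have hl2 : Tendsto (fun M => ‖⟪b v, (psi b ^ M) X (b u)⟫_ℂ‖) atTop
        (𝓝 ‖⟪b v, (X - G) (b u)⟫_ℂ‖) := by
      have h2 : Tendsto (fun M => (psi b ^ M) X (b u)) atTop (𝓝 ((X - G) (b u))) :=
        ((ContinuousLinearMap.apply ℂ H (b u)).continuous.tendsto _).comp hlim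
      exact (tendsto_const_nhds.inner h2).norm
    have hn : ∀ n, ‖⟪b v, (X - G) (b u)⟫_ℂ‖ ≤ ‖X‖ * hm n u := by
      intro n
      have h3 : Tendsto (fun M => ‖X‖ * hm n u + ‖(psi b ^ M) (X * qop b n - X)‖) atTop
          (𝓝 (‖X‖ * hm n u + 0)) :=
        tendsto_const_nhds.add (tendsto_psi_pow_compact b (hQ n))
      rw [add_zero] at h3
      refine le_of_tendsto_of_tendsto' hl2 h3 fun M => ?_
      have e : (psi b ^ M) X = (psi b ^ M) (X * qop b n) - (psi b ^ M) (X * qop b n - X) := by
        rw [← map_sub]; congr 1; abel
      rw [e, sub_apply, inner_sub_right]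
      refine (norm_sub_le _ _).trans (add_le_add ?_ ?_)
      · refine abs_inner_psi_pow_le b (fun u' v' => ?_) M u v
        rw [mul_apply_eq_comp]
        by_cases hs : List.replicate n false <:+ u'
        · rw [qop_basis_of_suffix b hs]
          have : hm n u' = 1 := by unfold hm; rw [if_pos hs]
          rw [this, mul_one]
          calc ‖⟪b v', X (b u')⟫_ℂ‖ ≤ ‖b v'‖ * ‖X (b u')‖ := norm_inner_le_norm _ _
            _ ≤ 1 * (‖X‖ * 1) := by
                rw [b.orthonormal.1 v']
                gcongr
                have := X.le_opNorm (b u')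
                rwa [b.orthonormal.1 u'] at this
            _ = ‖X‖ := by ring
        · rw [qop_basis_of_not b hs, map_zero, inner_zero_right, norm_zero]
          exact mul_nonneg (norm_nonneg _) (hm_nonneg _ _)
      · calc ‖⟪b v, (psi b ^ M) (X * qop b n - X) (b u)⟫_ℂ‖
            ≤ ‖b v‖ * ‖(psi b ^ M) (X * qop b n - X) (b u)‖ := norm_inner_le_norm _ _
          _ ≤ 1 * (‖(psi b ^ M) (X * qop b n - X)‖ * 1) := by
              rw [b.orthonormal.1 v]
              gcongr
              have := ((psi b ^ M) (X * qop b n - X)).le_opNorm (b u)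
              rwa [b.orthonormal.1 u] at this
          _ = _ := by ring
    have h4 : Tendsto (fun n => ‖X‖ * hm n u) atTop (𝓝 (‖X‖ * 0)) := (tendsto_hm u).const_mul _
    rw [mul_zero] at h4
    exact ge_of_tendsto' h4 hn
  rw [sub_eq_zero] at hzero
  rw [hzero]; exact hGc

/-- the essential norm -/
noncomputable def essNorm (X : H →L[ℂ] H) : ℝ :=
  Metric.infDist X {K : H →L[ℂ] H | IsCompactOperator K}

theorem essNorm_le_norm (X : H →L[ℂ] H) : essNorm X ≤ ‖X‖ := by
  have h0 : (0 : H →L[ℂ] H) ∈ {K : H →L[ℂ] H | IsCompactOperator K} := isCompactOperator_zero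
  have := Metric.infDist_le_dist_of_mem (x := X) h0
  rwa [dist_zero_right] at this

theorem essNorm_eq_zero {X : H →L[ℂ] H} : essNorm X = 0 ↔ IsCompactOperator X := by
  have hne : ({K : H →L[ℂ] H | IsCompactOperator K}).Nonempty := ⟨0, isCompactOperator_zero⟩
  have hcl : IsClosed {f : H →L[ℂ] H | IsCompactOperator f} := isClosed_setOfPred_isCompactOperator
  have := hcl.mem_iff_infDist_zero (x := X) hne
  exact this.symm

theorem inner_psi_pow_qop (n m : ℕ) : ∀ u : List Bool, List.replicate n false <:+ u →
    ⟪b u, (psi b ^ m) (qop b n) (b u)⟫_ℂ = 1 := by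
  induction m with
  | zero =>
    intro u hu
    rw [pow_zero, Module.End.one_apply, qop_basis_of_suffix b hu, inner_basis, if_pos rfl]
  | succ m ih =>
    intro u hu
    rw [pow_succ', Module.End.mul_apply, inner_psi, lop_basis, lop_basis,
      ih _ (hu.trans (List.suffix_cons _ _)), ih _ (hu.trans (List.suffix_cons _ _))]
    norm_num

theorem essNorm_qop (n : ℕ) : essNorm (qop b n) = 1 := by
  apply le_antisymm ((essNorm_le_norm _).trans (norm_qop_le b n))
  have hne : ({K : H →L[ℂ] H | IsCompactOperator K}).Nonempty := ⟨0, isCompactOperator_zero⟩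
  refine (Metric.le_infDist hne).2 fun K hK => ?_
  have h1 : ∀ M, 1 ≤ ‖qop b n - K‖ + ‖(psi b ^ M) K‖ := by
    intro M
    have h2 := inner_psi_pow_qop b n M (List.replicate n false) List.suffix_rfl
    have h3 : ‖⟪b (List.replicate n false), (psi b ^ M) (qop b n) (b (List.replicate n false))⟫_ℂ‖
        ≤ ‖(psi b ^ M) (qop b n)‖ := by
      calc _ ≤ ‖b (List.replicate n false)‖ * ‖(psi b ^ M) (qop b n) (b (List.replicate n false))‖ :=
            norm_inner_le_norm _ _
        _ ≤ 1 * (‖(psi b ^ M) (qop b n)‖ * 1) := by
            rw [b.orthonormal.1]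
            gcongr
            have := ((psi b ^ M) (qop b n)).le_opNorm (b (List.replicate n false))
            rwa [b.orthonormal.1] at this
        _ = _ := by ring
    rw [h2, norm_one] at h3
    have e : (psi b ^ M) (qop b n) = (psi b ^ M) (qop b n - K) + (psi b ^ M) K := by
      rw [← map_add, sub_add_cancel]
    have h4 := norm_add_le ((psi b ^ M) (qop b n - K)) ((psi b ^ M) K)
    rw [← e] at h4
    linarith [norm_psi_pow_le b M (qop b n - K)]
  have h5 : Tendsto (fun M => ‖qop b n - K‖ + ‖(psi b ^ M) K‖) atTop (𝓝 (‖qop b n - K‖ + 0)) :=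
    tendsto_const_nhds.add (tendsto_psi_pow_compact b hK)
  rw [add_zero] at h5
  rw [dist_eq_norm]
  exact ge_of_tendsto' h5 h1

theorem qop_mul_qop {m n : ℕ} (h : m ≤ n) : qop b n * qop b m = qop b n := by
  apply ext_basis b
  intro u
  rw [mul_apply_eq_comp]
  by_cases h1 : List.replicate m false <:+ u
  · rw [qop_basis_of_suffix b h1]
  · rw [qop_basis_of_not b h1, map_zero, qop_basis_of_not b]
    intro h2
    apply h1
    refine List.IsSuffix.trans ⟨List.replicate (n - m) false, ?_⟩ h2
    rw [List.replicate_append_replicate]; congr 1; omega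

theorem isFiniteRank_comm_qop (n : ℕ) (i : Bool) :
    IsFiniteRank (qop b n * lop b i - lop b i * qop b n) := by
  set V : Submodule ℂ H := Submodule.span ℂ {b (List.replicate n false)} with hV
  apply IsFiniteRank.of_le (V := V)
  intro x
  have hcl : IsClosed (V : Set H) := V.closed_of_finiteDimensional
  have hx : x ∈ (Submodule.span ℂ (Set.range b)).topologicalClosure := by rw [b.dense_span]; trivial
  set T := qop b n * lop b i - lop b i * qop b n with hT
  have h1 : (Submodule.span ℂ (Set.range b)).topologicalClosure ≤ V.comap (T : H →ₗ[ℂ] H) := by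
    apply Submodule.topologicalClosure_minimal
    · rw [Submodule.span_le]
      rintro _ ⟨u, rfl⟩
      show T (b u) ∈ V
      rw [hT, sub_apply, mul_apply_eq_comp, mul_apply_eq_comp, lop_basis]
      by_cases h2 : List.replicate n false <:+ u
      · rw [qop_basis_of_suffix b h2, qop_basis_of_suffix b (h2.trans (List.suffix_cons _ _)),
          lop_basis, sub_self]
        exact V.zero_mem
      · rw [qop_basis_of_not b h2, map_zero, sub_zero]
        by_cases h3 : List.replicate n false <:+ i :: u
        · rw [qop_basis_of_suffix b h3]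
          rw [List.suffix_cons_iff] at h3
          rcases h3 with h3 | h3
          · rw [← h3]; exact Submodule.mem_span_singleton_self _
          · exact absurd h3 h2
        · rw [qop_basis_of_not b h3]; exact V.zero_mem
    · exact hcl.preimage T.continuous
  exact h1 hx

end Pool.Agent.W680.DS
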