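import Pool.Agent.W680.DS.KyFan

/-!
# Normed ideals; the Macaev type ideal
-/

set_option autoImplicit false

open Filter Topology
open scoped ENNReal InnerProductSpace

namespace Pool.Agent.W680.DS

variable {H : Type*} [NormedAddCommGroup H] [InnerProductSpace ℂ H]

/-- finite rank operators -/
def IsFiniteRank (X : H →L[ℂ] H) : Prop :=
  FiniteDimensional ℂ (LinearMap.range (X : H →ₗ[ℂ] H))

/-- A normed ideal: a two-sided ideal `𝓘` of `B(H)` with `𝓡 ⊆ 𝓘 ⊆ 𝓚`, complete in a symmetric norm. -/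
structure IsNormedIdeal (I : Submodule ℂ (H →L[ℂ] H)) (nrm : (H →L[ℂ] H) → ℝ) : Prop where
  mul_mem : ∀ A B X : H →L[ℂ] H, X ∈ I → A * X * B ∈ I
  finiteRank_mem : ∀ X : H →L[ℂ] H, IsFiniteRank X → X ∈ I
  compact_of_mem : ∀ X ∈ I, IsCompactOperator X
  nonneg : ∀ X ∈ I, 0 ≤ nrm X
  eq_zero : ∀ X ∈ I, nrm X = 0 → X = 0
  add_le : ∀ X ∈ I, ∀ Y ∈ I, nrm (X + Y) ≤ nrm X + nrm Y
  smul_eq : ∀ c : ℂ, ∀ X ∈ I, nrm (c • X) = ‖c‖ * nrm X
  mul_le : ∀ A B X : H →L[ℂ] H, X ∈ I → nrm (A * X * B) ≤ ‖A‖ * nrm X * ‖B‖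
  complete : ∀ X : ℕ → H →L[ℂ] H, (∀ n, X n ∈ I) →
    (∀ ε : ℝ, 0 < ε → ∃ N, ∀ m ≥ N, ∀ n ≥ N, nrm (X m - X n) < ε) →
    ∃ Y ∈ I, Tendsto (fun n => nrm (X n - Y)) atTop (𝓝 0)

/-- the finite rank operators are dense in the normed ideal -/
def FiniteRankDense (I : Submodule ℂ (H →L[ℂ] H)) (nrm : (H →L[ℂ] H) → ℝ) : Prop :=
  ∀ X ∈ I, ∀ ε : ℝ, 0 < ε → ∃ F : H →L[ℂ] H, IsFiniteRank F ∧ nrm (X - F) < ε

/-- rank one operators -/
noncomputable def rk (u v : H) : H →L[ℂ] H := (innerSL ℂ v).smulRight u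

theorem rk_apply (u v x : H) : rk u v x = ⟪v, x⟫_ℂ • u := by
  simp [rk]

theorem IsFiniteRank.of_le {X : H →L[ℂ] H} {V : Submodule ℂ H} [FiniteDimensional ℂ V]
    (h : ∀ x, X x ∈ V) : IsFiniteRank X := by
  unfold IsFiniteRank
  apply Submodule.finiteDimensional_of_le (S₂ := V)
  rintro _ ⟨x, rfl⟩
  exact h x

theorem isFiniteRank_rk (u v : H) : IsFiniteRank (rk u v) := by
  apply IsFiniteRank.of_le (V := Submodule.span ℂ {u})
  intro x
  rw [rk_apply]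
  exact Submodule.smul_mem _ _ (Submodule.mem_span_singleton_self u)

theorem isFiniteRank_zero : IsFiniteRank (0 : H →L[ℂ] H) := by
  apply IsFiniteRank.of_le (V := ⊥)
  intro x; simp

theorem IsFiniteRank.add {X Y : H →L[ℂ] H} (hX : IsFiniteRank X) (hY : IsFiniteRank Y) :
    IsFiniteRank (X + Y) := by
  unfold IsFiniteRank at hX hY
  apply IsFiniteRank.of_le (V := LinearMap.range (X : H →ₗ[ℂ] H) ⊔ LinearMap.range (Y : H →ₗ[ℂ] H))
  intro x
  exact Submodule.add_mem_sup ⟨x, rfl⟩ ⟨x, rfl⟩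

theorem IsFiniteRank.smul {X : H →L[ℂ] H} (hX : IsFiniteRank X) (c : ℂ) : IsFiniteRank (c • X) := by
  unfold IsFiniteRank at hX
  apply IsFiniteRank.of_le (V := LinearMap.range (X : H →ₗ[ℂ] H))
  intro x
  exact ⟨c • x, by simp⟩

theorem IsFiniteRank.neg {X : H →L[ℂ] H} (hX : IsFiniteRank X) : IsFiniteRank (-X) := by
  have := hX.smul (-1); rwa [neg_one_smul] at this

theorem IsFiniteRank.sub {X Y : H →L[ℂ] H} (hX : IsFiniteRank X) (hY : IsFiniteRank Y) :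
    IsFiniteRank (X - Y) := by
  rw [sub_eq_add_neg]; exact hX.add hY.neg

theorem IsFiniteRank.mul_right {X : H →L[ℂ] H} (hX : IsFiniteRank X) (B : H →L[ℂ] H) :
    IsFiniteRank (X * B) := by
  unfold IsFiniteRank at hX
  apply IsFiniteRank.of_le (V := LinearMap.range (X : H →ₗ[ℂ] H))
  intro x
  exact ⟨B x, rfl⟩

theorem IsFiniteRank.mul_left {X : H →L[ℂ] H} (hX : IsFiniteRank X) (A : H →L[ℂ] H) :
    IsFiniteRank (A * X) := by
  unfold IsFiniteRank at hX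
  apply IsFiniteRank.of_le (V := (LinearMap.range (X : H →ₗ[ℂ] H)).map (A : H →ₗ[ℂ] H))
  intro x
  exact ⟨X x, ⟨x, rfl⟩, rfl⟩

theorem isFiniteRank_sum {ι : Type*} (s : Finset ι) (X : ι → H →L[ℂ] H)
    (h : ∀ i ∈ s, IsFiniteRank (X i)) : IsFiniteRank (∑ i ∈ s, X i) := by
  classical
  induction s using Finset.induction_on with
  | empty => simpa using isFiniteRank_zero
  | insert a s ha ih =>
    rw [Finset.sum_insert ha]
    exact (h a (Finset.mem_insert_self a s)).add (ih fun i hi => h i (Finset.mem_insert_of_mem hi))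

variable [CompleteSpace H]

theorem star_rk (u v : H) : star (rk u v) = rk v u := by
  rw [ContinuousLinearMap.star_eq_adjoint]
  symm
  rw [ContinuousLinearMap.eq_adjoint_iff]
  intro x y
  rw [rk_apply, rk_apply, inner_smul_left, inner_smul_right, inner_conj_symm]
  ring

theorem IsFiniteRank.exists_sum {X : H →L[ℂ] H} (hX : IsFiniteRank X) :
    ∃ (d : ℕ) (u v : Fin d → H), X = ∑ i, rk (u i) (v i) := by
  unfold IsFiniteRank at hX
  set V := LinearMap.range (X : H →ₗ[ℂ] H) with hV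
  let e := stdOrthonormalBasis ℂ V
  refine ⟨_, fun i => (e i : H), fun i => star X (e i : H), ?_⟩
  ext x
  rw [sum_apply]
  have h1 := e.sum_repr' ⟨X x, ⟨x, rfl⟩⟩
  have h2 := congrArg (Subtype.val) h1
  simp only [Submodule.coe_sum, Submodule.coe_smul, Submodule.coe_inner] at h2
  rw [← h2]
  refine Finset.sum_congr rfl fun i _ => ?_
  rw [rk_apply, ContinuousLinearMap.star_eq_adjoint, ContinuousLinearMap.adjoint_inner_left]

theorem IsFiniteRank.star {X : H →L[ℂ] H} (hX : IsFiniteRank X) : IsFiniteRank (star X) := by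
  obtain ⟨d, u, v, rfl⟩ := hX.exists_sum
  rw [star_sum]
  refine isFiniteRank_sum _ _ fun i _ => ?_
  rw [star_rk]
  exact isFiniteRank_rk _ _

omit [CompleteSpace H] in
theorem kf_rk_le (n : ℕ) (u v : H) : kf n (rk u v) ≤ ‖u‖ₑ * ‖v‖ₑ := by
  refine kf_le fun a b ha hb => ?_
  rw [← ofReal_norm, ← ofReal_norm u, ← ofReal_norm v, ← ENNReal.ofReal_mul (norm_nonneg _)]
  apply ENNReal.ofReal_le_ofReal
  have e : ∑ i, ⟪b i, rk u v (a i)⟫_ℂ = ⟪v, ∑ i, ⟪b i, u⟫_ℂ • a i⟫_ℂ := by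
    rw [inner_sum]
    refine Finset.sum_congr rfl fun i _ => ?_
    rw [rk_apply, inner_smul_right, inner_smul_right]
    ring
  rw [e, mul_comm]
  refine (norm_inner_le_norm _ _).trans (mul_le_mul_of_nonneg_left ?_ (norm_nonneg _))
  have h1 := ha fun i => ⟪b i, u⟫_ℂ
  have h2 := hb.sum_inner_sq u
  exact abs_le_of_sq_le_sq' (h1.trans h2) (norm_nonneg _) |>.2

theorem tsum_half : ∑' m : ℕ, (2⁻¹ : ℝ≥0∞) ^ m = 2 := by
  rw [ENNReal.tsum_geometric]
  rw [ENNReal.one_sub_inv_two, inv_inv]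

omit [CompleteSpace H] in
theorem nn_rk_le (u v : H) : nn (rk u v) ≤ 2 * (‖u‖ₑ * ‖v‖ₑ) := by
  have h : ∑' m : ℕ, (2⁻¹ : ℝ≥0∞) ^ m * kf (2 ^ m) (rk u v)
      ≤ ∑' m : ℕ, (2⁻¹ : ℝ≥0∞) ^ m * (‖u‖ₑ * ‖v‖ₑ) :=
    ENNReal.tsum_le_tsum fun m => mul_le_mul_right (kf_rk_le _ u v) _
  rw [ENNReal.tsum_mul_right, tsum_half] at h
  exact h

theorem IsFiniteRank.nn_lt_top {X : H →L[ℂ] H} (hX : IsFiniteRank X) : nn X < ⊤ := by
  obtain ⟨d, u, v, rfl⟩ := hX.exists_sum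
  refine (nn_sum_le _ _).trans_lt ?_
  rw [ENNReal.sum_lt_top]
  intro i _
  refine (nn_rk_le _ _).trans_lt ?_
  exact ENNReal.mul_lt_top (by simp) (ENNReal.mul_lt_top enorm_lt_top enorm_lt_top)

theorem IsFiniteRank.compact {X : H →L[ℂ] H} (hX : IsFiniteRank X) : IsCompactOperator X := by
  obtain ⟨d, u, v, rfl⟩ := hX.exists_sum
  have : ∑ i, rk (u i) (v i) ∈ compactOperator (RingHom.id ℂ) H H := by
    refine Submodule.sum_mem _ fun i _ => ?_
    show IsCompactOperator (rk (u i) (v i))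
    have h1 : IsCompactOperator (innerSL ℂ (v i)) :=
      isCompactOperator_of_locallyCompactSpace_dom _
    have h2 := h1.clm_comp ((ContinuousLinearMap.id ℂ ℂ).smulRight (u i))
    have e : (rk (u i) (v i) : H → H)
        = ((ContinuousLinearMap.id ℂ ℂ).smulRight (u i)) ∘ (innerSL ℂ (v i)) := by
      ext x; simp [rk]
    rw [e]; exact h2
  exact this

/-- The closure of the finite rank operators in the Macaev type norm `nn`. -/
def mac : Submodule ℂ (H →L[ℂ] H) where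
  carrier := {X | ∀ ε : ℝ≥0∞, 0 < ε → ∃ F : H →L[ℂ] H, IsFiniteRank F ∧ nn (X - F) ≤ ε}
  zero_mem' := fun ε _ => ⟨0, isFiniteRank_zero, by rw [sub_zero, nn_zero]; exact zero_le⟩
  add_mem' := by
    intro X Y hX hY ε hε
    have h2 : 0 < ε / 2 := ENNReal.half_pos hε.ne'
    obtain ⟨F, hF, h3⟩ := hX (ε / 2) h2
    obtain ⟨G, hG, h4⟩ := hY (ε / 2) h2
    refine ⟨F + G, hF.add hG, ?_⟩
    rw [add_sub_add_comm, ← ENNReal.add_halves ε]
    exact (nn_add _ _).trans (add_le_add h3 h4)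
  smul_mem' := by
    intro c X hX ε hε
    have hc : ‖c‖ₑ + 1 ≠ ⊤ := by simp
    have h0 : ‖c‖ₑ + 1 ≠ 0 := by simp
    obtain ⟨F, hF, h3⟩ := hX (ε / (‖c‖ₑ + 1)) (ENNReal.div_pos hε.ne' hc)
    refine ⟨c • F, hF.smul c, ?_⟩
    rw [← smul_sub, nn_smul]
    calc ‖c‖ₑ * nn (X - F) ≤ (‖c‖ₑ + 1) * (ε / (‖c‖ₑ + 1)) := mul_le_mul' le_self_add h3
      _ = ε := ENNReal.mul_div_cancel h0 hc

theorem mem_mac {X : H →L[ℂ] H} : X ∈ (mac : Submodule ℂ (H →L[ℂ] H)) ↔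
    ∀ ε : ℝ≥0∞, 0 < ε → ∃ F : H →L[ℂ] H, IsFiniteRank F ∧ nn (X - F) ≤ ε := Iff.rfl

theorem nn_lt_top_of_mem {X : H →L[ℂ] H} (hX : X ∈ (mac : Submodule ℂ (H →L[ℂ] H))) :
    nn X < ⊤ := by
  obtain ⟨F, hF, h⟩ := hX 1 one_pos
  calc nn X = nn ((X - F) + F) := by rw [sub_add_cancel]
    _ ≤ nn (X - F) + nn F := nn_add _ _
    _ < ⊤ := ENNReal.add_lt_top.2 ⟨h.trans_lt ENNReal.one_lt_top, hF.nn_lt_top⟩

theorem finiteRank_mem_mac {X : H →L[ℂ] H} (hX : IsFiniteRank X) :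
    X ∈ (mac : Submodule ℂ (H →L[ℂ] H)) := fun ε _ =>
  ⟨X, hX, by rw [sub_self, nn_zero]; exact zero_le⟩

theorem compact_of_mem_mac {X : H →L[ℂ] H} (hX : X ∈ (mac : Submodule ℂ (H →L[ℂ] H))) :
    IsCompactOperator X := by
  have hcl : IsClosed {f : H →L[ℂ] H | IsCompactOperator f} := isClosed_setOfPred_isCompactOperator
  have : X ∈ closure {f : H →L[ℂ] H | IsCompactOperator f} := by
    rw [Metric.mem_closure_iff]
    intro ε hε
    obtain ⟨F, hF, h⟩ := hX (ENNReal.ofReal (ε / 2)) (by simpa using hε)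
    refine ⟨F, hF.compact, ?_⟩
    have h1 := (norm_le_nn (X - F)).trans h
    rw [← ofReal_norm, ENNReal.ofReal_le_ofReal_iff (by linarith)] at h1
    rw [dist_eq_norm]; linarith
  rwa [hcl.closure_eq] at this

theorem mul_mem_mac {X : H →L[ℂ] H} (hX : X ∈ (mac : Submodule ℂ (H →L[ℂ] H))) (A B : H →L[ℂ] H) :
    A * X * B ∈ (mac : Submodule ℂ (H →L[ℂ] H)) := by
  intro ε hε
  have hc : (‖A‖ₑ + 1) * (‖B‖ₑ + 1) ≠ ⊤ :=
    ENNReal.mul_ne_top (by simp) (by simp)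
  have h0 : (‖A‖ₑ + 1) * (‖B‖ₑ + 1) ≠ 0 := by simp
  obtain ⟨F, hF, h3⟩ := hX (ε / ((‖A‖ₑ + 1) * (‖B‖ₑ + 1))) (ENNReal.div_pos hε.ne' hc)
  refine ⟨A * F * B, (hF.mul_left A).mul_right B, ?_⟩
  have e : A * X * B - A * F * B = A * (X - F) * B := by
    rw [mul_sub, sub_mul]
  rw [e]
  calc nn (A * (X - F) * B) ≤ ‖A‖ₑ * nn (X - F) * ‖B‖ₑ := nn_mul_le _ _ _
    _ ≤ (‖A‖ₑ + 1) * (ε / ((‖A‖ₑ + 1) * (‖B‖ₑ + 1))) * (‖B‖ₑ + 1) := by
        gcongr <;> exact le_self_add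
    _ = (‖A‖ₑ + 1) * (‖B‖ₑ + 1) * (ε / ((‖A‖ₑ + 1) * (‖B‖ₑ + 1))) := by ring
    _ = ε := ENNReal.mul_div_cancel h0 hc

/-- the norm of the Macaev type ideal -/
noncomputable def macNorm (X : H →L[ℂ] H) : ℝ := (nn X).toReal

theorem ofReal_macNorm {X : H →L[ℂ] H} (hX : X ∈ (mac : Submodule ℂ (H →L[ℂ] H))) :
    ENNReal.ofReal (macNorm X) = nn X := ENNReal.ofReal_toReal (nn_lt_top_of_mem hX).ne

theorem norm_le_macNorm {X : H →L[ℂ] H} (hX : X ∈ (mac : Submodule ℂ (H →L[ℂ] H))) :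
    ‖X‖ ≤ macNorm X := by
  have := norm_le_nn X
  rw [← ofReal_norm, ENNReal.ofReal_le_iff_le_toReal (nn_lt_top_of_mem hX).ne] at this
  exact this

theorem isNormedIdeal_mac : IsNormedIdeal (mac : Submodule ℂ (H →L[ℂ] H)) macNorm where
  mul_mem := fun A B X hX => mul_mem_mac hX A B
  finiteRank_mem := fun X hX => finiteRank_mem_mac hX
  compact_of_mem := fun X hX => compact_of_mem_mac hX
  nonneg := fun X _ => ENNReal.toReal_nonneg
  eq_zero := fun X hX h => by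
    have := norm_le_macNorm hX
    rw [h] at this
    exact norm_le_zero_iff.1 this
  add_le := fun X hX Y hY => by
    unfold macNorm
    rw [← ENNReal.toReal_add (nn_lt_top_of_mem hX).ne (nn_lt_top_of_mem hY).ne]
    exact ENNReal.toReal_mono (ENNReal.add_ne_top.2 ⟨(nn_lt_top_of_mem hX).ne,
      (nn_lt_top_of_mem hY).ne⟩) (nn_add X Y)
  smul_eq := fun c X _ => by
    unfold macNorm
    rw [nn_smul, ENNReal.toReal_mul]; simp
  mul_le := fun A B X hX => by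
    unfold macNorm
    have h := nn_mul_le A X B
    have := ENNReal.toReal_mono (ENNReal.mul_ne_top (ENNReal.mul_ne_top enorm_ne_top
      (nn_lt_top_of_mem hX).ne) enorm_ne_top) h
    rw [ENNReal.toReal_mul, ENNReal.toReal_mul] at this
    simpa using this
  complete := by
    intro X hX hC
    have hsub : ∀ m n, X m - X n ∈ (mac : Submodule ℂ (H →L[ℂ] H)) := fun m n =>
      Submodule.sub_mem _ (hX m) (hX n)
    have hcau : CauchySeq X := by
      rw [Metric.cauchySeq_iff]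
      intro ε hε
      obtain ⟨N, hN⟩ := hC ε hε
      refine ⟨N, fun m hm n hn => ?_⟩
      rw [dist_eq_norm]
      exact (norm_le_macNorm (hsub m n)).trans_lt (hN m hm n hn)
    obtain ⟨Y, hY⟩ := cauchySeq_tendsto_of_complete hcau
    have hlim : ∀ ε : ℝ, 0 < ε → ∃ N, ∀ m ≥ N, nn (X m - Y) ≤ ENNReal.ofReal ε := by
      intro ε hε
      obtain ⟨N, hN⟩ := hC ε hε
      refine ⟨N, fun m hm => ?_⟩
      have hcl : IsClosed {Z : H →L[ℂ] H | nn Z ≤ ENNReal.ofReal ε} :=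
        lsc_nn.isClosed_preimage _
      have ht : Tendsto (fun n => X m - X n) atTop (𝓝 (X m - Y)) := hY.const_sub (X m)
      refine hcl.mem_of_tendsto ht ?_
      filter_upwards [eventually_ge_atTop N] with n hn
      show nn (X m - X n) ≤ ENNReal.ofReal ε
      rw [← ofReal_macNorm (hsub m n)]
      exact ENNReal.ofReal_le_ofReal (hN m hm n hn).le
    have hYmem : Y ∈ (mac : Submodule ℂ (H →L[ℂ] H)) := by
      intro ε hε
      obtain ⟨δ, hδ0, hδ⟩ : ∃ δ : ℝ, 0 < δ ∧ ENNReal.ofReal δ ≤ ε / 2 := by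
        rcases eq_or_ne ε ⊤ with h | h
        · exact ⟨1, one_pos, by rw [h]; simp [ENNReal.top_div]⟩
        · have h2 : 0 < ε / 2 := ENNReal.half_pos hε.ne'
          have h3 : ε / 2 ≠ ⊤ := (ENNReal.div_lt_top h (by simp)).ne
          exact ⟨(ε / 2).toReal, ENNReal.toReal_pos h2.ne' h3, by rw [ENNReal.ofReal_toReal h3]⟩
      obtain ⟨N, hN⟩ := hlim δ hδ0
      obtain ⟨F, hF, h4⟩ := hX N (ε / 2) (ENNReal.half_pos hε.ne')
      refine ⟨F, hF, ?_⟩
      have h5 : nn (Y - X N) ≤ ε / 2 := by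
        rw [← nn_neg, neg_sub]
        exact (hN N le_rfl).trans hδ
      calc nn (Y - F) = nn ((Y - X N) + (X N - F)) := by rw [sub_add_sub_cancel]
        _ ≤ nn (Y - X N) + nn (X N - F) := nn_add _ _
        _ ≤ ε / 2 + ε / 2 := add_le_add h5 h4
        _ = ε := ENNReal.add_halves ε
    refine ⟨Y, hYmem, ?_⟩
    rw [Metric.tendsto_atTop]
    intro ε hε
    obtain ⟨N, hN⟩ := hlim (ε / 2) (by linarith)
    refine ⟨N, fun n hn => ?_⟩
    have hnn : 0 ≤ macNorm (X n - Y) := ENNReal.toReal_nonneg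
    rw [Real.dist_eq, sub_zero, abs_of_nonneg hnn]
    have := ENNReal.toReal_mono ENNReal.ofReal_ne_top (hN n hn)
    rw [ENNReal.toReal_ofReal (by linarith)] at this
    show (nn (X n - Y)).toReal < ε
    linarith

theorem finiteRankDense_mac : FiniteRankDense (mac : Submodule ℂ (H →L[ℂ] H)) macNorm := by
  intro X hX ε hε
  obtain ⟨F, hF, h⟩ := hX (ENNReal.ofReal (ε / 2)) (by simpa using hε)
  refine ⟨F, hF, ?_⟩
  have := ENNReal.toReal_mono ENNReal.ofReal_ne_top h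
  rw [ENNReal.toReal_ofReal (by linarith)] at this
  show (nn (X - F)).toReal < ε
  linarith

end Pool.Agent.W680.DS
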