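import Pool.Agent.W680.DS.Stmt

/-!
# `0 < k_I(τ) < ∞`
-/

set_option autoImplicit false

open Filter Topology
open scoped ENNReal InnerProductSpace

namespace Pool.Agent.W680.DS

variable {H : Type*} [NormedAddCommGroup H] [InnerProductSpace ℂ H] [CompleteSpace H]
variable (b : HilbertBasis (List Bool) ℂ H)

theorem norm_inner_basis_le (T : H →L[ℂ] H) (u v : List Bool) : ‖⟪b v, T (b u)⟫_ℂ‖ ≤ ‖T‖ := by
  calc ‖⟪b v, T (b u)⟫_ℂ‖ ≤ ‖b v‖ * ‖T (b u)‖ := norm_inner_le_norm _ _
    _ ≤ 1 * (‖T‖ * 1) := by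
        rw [b.orthonormal.1 v]
        gcongr
        have := T.le_opNorm (b u)
        rwa [b.orthonormal.1 u] at this
    _ = ‖T‖ := by ring

/-! ### lower bound -/

theorem norm_sub_psi_pow_le {A : H →L[ℂ] H} (hA : A - psi b A ∈ (mac : Submodule ℂ (H →L[ℂ] H)))
    (M : ℕ) : ‖A - (psi b ^ M) A‖ ≤ macNorm (A - psi b A) := by
  rw [sub_psi_pow]
  set Y := A - psi b A with hY
  have h1 : ∑ m ∈ Finset.range M, ‖(psi b ^ m) Y‖ₑ ≤ nn Y :=
    (ENNReal.sum_le_tsum _).trans (tsum_enorm_psi_pow_le b Y)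
  have h2 : ENNReal.ofReal (∑ m ∈ Finset.range M, ‖(psi b ^ m) Y‖) ≤ nn Y := by
    rw [ENNReal.ofReal_sum_of_nonneg fun i _ => norm_nonneg _]
    simpa only [ofReal_norm] using h1
  rw [ENNReal.ofReal_le_iff_le_toReal (nn_lt_top_of_mem hA).ne] at h2
  exact (norm_sum_le _ _).trans h2

theorem norm_inner_nil_le {A : H →L[ℂ] H} (hc : IsCompactOperator A)
    (hA : A - psi b A ∈ (mac : Submodule ℂ (H →L[ℂ] H))) :
    ‖⟪b [], A (b [])⟫_ℂ‖ ≤ macNorm (A - psi b A) := by
  have h1 : ∀ M, ‖⟪b [], A (b [])⟫_ℂ‖ ≤ macNorm (A - psi b A) + ‖(psi b ^ M) A‖ := by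
    intro M
    have e : A = (A - (psi b ^ M) A) + (psi b ^ M) A := by abel
    calc ‖⟪b [], A (b [])⟫_ℂ‖
        = ‖⟪b [], ((A - (psi b ^ M) A) + (psi b ^ M) A) (b [])⟫_ℂ‖ := by rw [← e]
      _ ≤ ‖(A - (psi b ^ M) A) + (psi b ^ M) A‖ := norm_inner_basis_le b _ _ _
      _ ≤ ‖A - (psi b ^ M) A‖ + ‖(psi b ^ M) A‖ := norm_add_le _ _
      _ ≤ _ := by gcongr; exact norm_sub_psi_pow_le b hA M
  have h2 : Tendsto (fun M => macNorm (A - psi b A) + ‖(psi b ^ M) A‖) atTop
      (𝓝 (macNorm (A - psi b A) + 0)) :=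
    tendsto_const_nhds.add (tendsto_psi_pow_compact b hc)
  rw [add_zero] at h2
  exact ge_of_tendsto' h2 h1

theorem finiteRank_mem_commMod {A : H →L[ℂ] H} (hA : IsFiniteRank A) : A ∈ commMod mac (tau b) :=
  fun j => finiteRank_mem_mac ((hA.mul_right _).sub (hA.mul_left _))

theorem macNorm_sub_psi_le {A : H →L[ℂ] H} (hA : IsFiniteRank A) :
    macNorm (A - psi b A) ≤ ⨆ j, macNorm (A * tau b j - tau b j * A) := by
  have key : ∀ i, macNorm (star (lop b i) * A * lop b i - A)
      ≤ macNorm (A * lop b i - lop b i * A) := by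
    intro i
    have hm : A * lop b i - lop b i * A ∈ (mac : Submodule ℂ (H →L[ℂ] H)) :=
      finiteRank_mem_mac ((hA.mul_right _).sub (hA.mul_left _))
    have h2 := isNormedIdeal_mac.mul_le (star (lop b i)) 1 _ hm
    have h3 : star (lop b i) * lop b i = 1 := star_vop_mul_vop b _
    have e : star (lop b i) * (A * lop b i - lop b i * A) * 1 = star (lop b i) * A * lop b i - A := by
      rw [mul_one, mul_sub, ← mul_assoc, ← mul_assoc, h3, one_mul]
    rw [e] at h2
    refine h2.trans ?_
    have h4 : 0 ≤ macNorm (A * lop b i - lop b i * A) := ENNReal.toReal_nonneg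
    have h5 := norm_lop_le b i
    have h6 : ‖(1 : H →L[ℂ] H)‖ ≤ 1 := ContinuousLinearMap.norm_id_le
    rw [norm_star]
    calc ‖lop b i‖ * macNorm (A * lop b i - lop b i * A) * ‖(1 : H →L[ℂ] H)‖
        ≤ 1 * macNorm (A * lop b i - lop b i * A) * 1 := by gcongr
      _ = _ := by ring
  have hj : ∀ j, macNorm (A * tau b j - tau b j * A)
      ≤ ⨆ j, macNorm (A * tau b j - tau b j * A) := fun j =>
    le_ciSup (f := fun j => macNorm (A * tau b j - tau b j * A)) (Set.finite_range _).bddAbove j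
  have h0 : macNorm (A * lop b false - lop b false * A)
      ≤ ⨆ j, macNorm (A * tau b j - tau b j * A) := hj 0
  have h1 : macNorm (A * lop b true - lop b true * A)
      ≤ ⨆ j, macNorm (A * tau b j - tau b j * A) := hj 1
  have hmem : ∀ i, star (lop b i) * A * lop b i - A ∈ (mac : Submodule ℂ (H →L[ℂ] H)) := fun i =>
    finiteRank_mem_mac (((hA.mul_left _).mul_right _).sub hA)
  have e : A - psi b A = (-(1 / 2) : ℂ) • ((star (lop b false) * A * lop b false - A)
      + (star (lop b true) * A * lop b true - A)) := by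
    rw [psi_apply]; module
  rw [e, isNormedIdeal_mac.smul_eq _ _ (Submodule.add_mem _ (hmem _) (hmem _))]
  have h2 := isNormedIdeal_mac.add_le _ (hmem false) _ (hmem true)
  have h3 : ‖(-(1 / 2) : ℂ)‖ = 1 / 2 := by norm_num
  rw [h3]
  linarith [key false, key true]

theorem one_le_kval : 1 ≤ kval macNorm (tau b) := by
  apply le_sInf
  rintro C ⟨A, hfr, -, -, -, hlim, hC⟩
  have h1 : Tendsto (fun m => ENNReal.ofReal ‖⟪b [], A m (b [])⟫_ℂ‖) atTop (𝓝 1) := by
    have h2 : Tendsto (fun m => ‖⟪b [], A m (b [])⟫_ℂ‖) atTop (𝓝 ‖⟪b [], b []⟫_ℂ‖) :=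
      (tendsto_const_nhds.inner (hlim (b []))).norm
    rw [inner_basis, if_pos rfl, norm_one] at h2
    have h3 := ENNReal.tendsto_ofReal h2
    rwa [ENNReal.ofReal_one] at h3
  refine le_of_tendsto_of_tendsto' h1 hC fun m => ?_
  apply ENNReal.ofReal_le_ofReal
  exact (norm_inner_nil_le b (hfr m).compact (sub_psi_mem b (finiteRank_mem_commMod b (hfr m)))).trans
    (macNorm_sub_psi_le b (hfr m))

/-! ### upper bound -/

/-- the projection onto the words of length `< m` -/
noncomputable def pop : ℕ → H →L[ℂ] H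
  | 0 => 0
  | m + 1 => rk (b []) (b []) + lop b false * pop m * star (lop b false)
      + lop b true * pop m * star (lop b true)

theorem pop_basis (m : ℕ) : ∀ w : List Bool, pop b m (b w) = if w.length < m then b w else 0 := by
  induction m with
  | zero => intro w; simp [pop]
  | succ m ih =>
    intro w
    rw [pop, add_apply, add_apply, rk_apply, inner_basis]
    simp only [mul_apply_eq_comp]
    cases w with
    | nil =>
      rw [star_lop_nil, star_lop_nil, map_zero, map_zero, map_zero]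
      simp
    | cons i u =>
      have h0 : ([] : List Bool) ≠ i :: u := (List.cons_ne_nil i u).symm
      rw [if_neg h0, zero_smul, zero_add]
      cases i with
      | false =>
        rw [star_lop_cons, star_lop_ne b (by decide : true ≠ false), map_zero, map_zero, add_zero, ih]
        by_cases h : u.length < m
        · rw [if_pos h, if_pos (by simpa using h), lop_basis]
        · rw [if_neg h, if_neg (by simpa using h), map_zero]
      | true =>
        rw [star_lop_cons, star_lop_ne b (by decide : false ≠ true), map_zero, map_zero, zero_add, ih]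
        by_cases h : u.length < m
        · rw [if_pos h, if_pos (by simpa using h), lop_basis]
        · rw [if_neg h, if_neg (by simpa using h), map_zero]

theorem isFiniteRank_pop (m : ℕ) : IsFiniteRank (pop b m) := by
  induction m with
  | zero => exact isFiniteRank_zero
  | succ m ih =>
    exact ((isFiniteRank_rk _ _).add ((ih.mul_left _).mul_right _)).add ((ih.mul_left _).mul_right _)

theorem enorm_lop_le (i : Bool) : ‖lop b i‖ₑ ≤ 1 := by
  rw [← ofReal_norm, ← ENNReal.ofReal_one]
  exact ENNReal.ofReal_le_ofReal (norm_lop_le b i)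

theorem enorm_star_lop_le (i : Bool) : ‖star (lop b i)‖ₑ ≤ 1 := by
  rw [← ofReal_norm, ← ENNReal.ofReal_one, norm_star]
  exact ENNReal.ofReal_le_ofReal (norm_lop_le b i)

theorem kf_pop_le (n m : ℕ) : kf n (pop b m) + 1 ≤ 2 ^ m := by
  induction m with
  | zero =>
    have : kf n (pop b 0) ≤ 0 := by
      have h := kf_smul_le n (0 : ℂ) (0 : H →L[ℂ] H)
      simpa [pop] using h
    rw [nonpos_iff_eq_zero.1 this]; simp
  | succ m ih =>
    have h1 : ∀ i, kf n (lop b i * pop b m * star (lop b i)) ≤ kf n (pop b m) := by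
      intro i
      refine (kf_mul_right_le n _ _).trans ?_
      calc kf n (lop b i * pop b m) * ‖star (lop b i)‖ₑ
          ≤ (‖lop b i‖ₑ * kf n (pop b m)) * 1 :=
            mul_le_mul' (kf_mul_left_le n _ _) (enorm_star_lop_le b i)
        _ ≤ (1 * kf n (pop b m)) * 1 := by gcongr; exact enorm_lop_le b i
        _ = _ := by ring
    have h2 : kf n (rk (b []) (b [])) ≤ 1 := by
      refine (kf_rk_le n _ _).trans ?_
      rw [← ofReal_norm, b.orthonormal.1]; simp
    calc kf n (pop b (m + 1)) + 1 ≤ (1 + kf n (pop b m) + kf n (pop b m)) + 1 := by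
          gcongr
          rw [pop]
          refine (kf_add n _ _).trans (add_le_add ((kf_add n _ _).trans (add_le_add h2 (h1 _))) (h1 _))
      _ = 2 * (kf n (pop b m) + 1) := by ring
      _ ≤ 2 * 2 ^ m := by gcongr
      _ = 2 ^ (m + 1) := by rw [pow_succ']

theorem norm_le_one_of_diag {T : H →L[ℂ] H} {t : List Bool → ℝ} (h0 : ∀ w, 0 ≤ t w)
    (h1 : ∀ w, t w ≤ 1) (hT : ∀ w, T (b w) = (t w : ℂ) • b w) : 0 ≤ T ∧ T ≤ 1 ∧ ‖T‖ ≤ 1 := by
  have hp : 0 ≤ T := nonneg_of_diag b h0 hT
  have hl : T ≤ 1 := by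
    rw [← sub_nonneg]
    refine nonneg_of_diag b (t := fun w => 1 - t w) (fun w => by linarith [h1 w]) fun w => ?_
    rw [sub_apply, hT]
    simp [sub_smul]
  exact ⟨hp, hl, (CStarAlgebra.norm_le_one_iff_of_nonneg T hp).2 hl⟩

theorem norm_pop_le (m : ℕ) : ‖pop b m‖ ≤ 1 := by
  refine (norm_le_one_of_diag b (t := fun w => if w.length < m then 1 else 0) ?_ ?_ ?_).2.2
  · intro w; split_ifs <;> norm_num
  · intro w; split_ifs <;> norm_num
  · intro w; rw [pop_basis]; split_ifs <;> simp

theorem nn_pop_le (m : ℕ) : nn (pop b m) ≤ m + 2 := by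
  have h1 : ∀ k, (2⁻¹ : ℝ≥0∞) ^ k * kf (2 ^ k) (pop b m) ≤ 1 := by
    intro k
    have h2 : kf (2 ^ k) (pop b m) ≤ 2 ^ k := by
      refine (kf_le_nsmul _ _).trans ?_
      have : ‖pop b m‖ₑ ≤ 1 := by
        rw [← ofReal_norm, ← ENNReal.ofReal_one]
        exact ENNReal.ofReal_le_ofReal (norm_pop_le b m)
      calc ((2 ^ k : ℕ) : ℝ≥0∞) * ‖pop b m‖ₑ ≤ ((2 ^ k : ℕ) : ℝ≥0∞) * 1 := by gcongr
        _ = 2 ^ k := by push_cast; ring
    calc (2⁻¹ : ℝ≥0∞) ^ k * kf (2 ^ k) (pop b m) ≤ (2⁻¹ : ℝ≥0∞) ^ k * 2 ^ k := by gcongr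
      _ = 1 := by rw [← mul_pow, ENNReal.inv_mul_cancel (by norm_num) (by norm_num), one_pow]
  have h2 : ∀ k, (2⁻¹ : ℝ≥0∞) ^ (k + m) * kf (2 ^ (k + m)) (pop b m) ≤ (2⁻¹ : ℝ≥0∞) ^ k := by
    intro k
    calc (2⁻¹ : ℝ≥0∞) ^ (k + m) * kf (2 ^ (k + m)) (pop b m)
        ≤ (2⁻¹ : ℝ≥0∞) ^ (k + m) * 2 ^ m := by
          gcongr
          exact le_self_add.trans (kf_pop_le b _ m)
      _ = (2⁻¹ : ℝ≥0∞) ^ k := by
          rw [pow_add, mul_assoc, ← mul_pow (2⁻¹ : ℝ≥0∞) 2 m,
            ENNReal.inv_mul_cancel (by norm_num) (by norm_num), one_pow, mul_one]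
  unfold nn
  rw [← ENNReal.summable.sum_add_tsum_nat_add' (k := m)]
  refine add_le_add ?_ ?_
  · calc ∑ k ∈ Finset.range m, (2⁻¹ : ℝ≥0∞) ^ k * kf (2 ^ k) (pop b m)
        ≤ ∑ _k ∈ Finset.range m, 1 := Finset.sum_le_sum fun k _ => h1 k
      _ = m := by simp
  · exact (ENNReal.tsum_le_tsum h2).trans (le_of_eq tsum_half)

/-- the cutoffs -/
noncomputable def aop (m : ℕ) : H →L[ℂ] H := ((m : ℂ)⁻¹) • ∑ k ∈ Finset.range m, pop b (k + 1)

theorem sum_pop_basis (m : ℕ) (w : List Bool) :
    ∑ k ∈ Finset.range m, pop b (k + 1) (b w) = ((m - w.length : ℕ) : ℂ) • b w := by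
  induction m with
  | zero => simp
  | succ m ih =>
    rw [Finset.sum_range_succ, ih, pop_basis]
    by_cases h : w.length ≤ m
    · rw [if_pos (by omega), show m + 1 - w.length = (m - w.length) + 1 by omega]
      push_cast; rw [add_smul, one_smul]
    · rw [if_neg (by omega), show m + 1 - w.length = 0 by omega, show m - w.length = 0 by omega,
        add_zero]

theorem aop_basis (m : ℕ) (w : List Bool) :
    aop b m (b w) = (((m - w.length : ℕ) / m : ℝ) : ℂ) • b w := by
  unfold aop
  rw [smul_apply, sum_apply, sum_pop_basis, smul_smul]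
  congr 1
  push_cast; ring

theorem aop_coef_nonneg (m : ℕ) (w : List Bool) : (0 : ℝ) ≤ ((m - w.length : ℕ) / m : ℝ) := by
  positivity

theorem aop_coef_le (m : ℕ) (w : List Bool) : ((m - w.length : ℕ) / m : ℝ) ≤ 1 := by
  rcases Nat.eq_zero_or_pos m with h | h
  · subst h; simp
  · rw [div_le_one (by exact_mod_cast h)]
    exact_mod_cast Nat.sub_le m w.length

theorem aop_props (m : ℕ) : 0 ≤ aop b m ∧ aop b m ≤ 1 ∧ ‖aop b m‖ ≤ 1 :=
  norm_le_one_of_diag b (aop_coef_nonneg m) (aop_coef_le m) (aop_basis b m)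

theorem isFiniteRank_aop (m : ℕ) : IsFiniteRank (aop b m) :=
  (isFiniteRank_sum _ _ fun k _ => isFiniteRank_pop b (k + 1)).smul _

theorem monotone_aop : Monotone (aop b) := by
  apply monotone_nat_of_le_succ
  intro m
  rw [← sub_nonneg]
  refine nonneg_of_diag b
    (t := fun w => ((m + 1 - w.length : ℕ) / ((m + 1 : ℕ) : ℝ) : ℝ) - ((m - w.length : ℕ) / m : ℝ))
    (fun w => ?_) fun w => ?_
  · rw [sub_nonneg]
    rcases Nat.eq_zero_or_pos m with h | h
    · subst h
      simp only [Nat.cast_zero, div_zero]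
      positivity
    · have hm : (0 : ℝ) < m := by exact_mod_cast h
      rw [div_le_div_iff₀ hm (by positivity)]
      by_cases h2 : w.length ≤ m
      · rw [Nat.cast_sub h2, Nat.cast_sub (by omega)]
        push_cast
        have : (0 : ℝ) ≤ w.length := by positivity
        nlinarith
      · rw [show m - w.length = 0 by omega]
        simp only [Nat.cast_zero, zero_mul]
        positivity
  · rw [sub_apply, aop_basis, aop_basis, ← sub_smul, ← Complex.ofReal_sub]

theorem tendsto_aop (x : H) : Tendsto (fun m => aop b m x) atTop (𝓝 x) := by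
  have hbase : ∀ w, Tendsto (fun m => aop b m (b w)) atTop (𝓝 (b w)) := by
    intro w
    have h1 : Tendsto (fun m : ℕ => ((m - w.length : ℕ) / m : ℝ)) atTop (𝓝 1) := by
      have h2 : Tendsto (fun m : ℕ => 1 - (w.length : ℝ) / m) atTop (𝓝 (1 - 0)) :=
        tendsto_const_nhds.sub (tendsto_const_div_atTop_nhds_zero_nat _)
      rw [sub_zero] at h2
      refine h2.congr' ?_
      filter_upwards [eventually_gt_atTop w.length] with m hm
      have : (m : ℝ) ≠ 0 := by
        have : 0 < m := by omega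
        exact_mod_cast this.ne'
      rw [Nat.cast_sub hm.le]
      field_simp
    have h3 : Tendsto (fun m : ℕ => (((m - w.length : ℕ) / m : ℝ) : ℂ) • b w) atTop
        (𝓝 (((1 : ℝ) : ℂ) • b w)) :=
      ((Complex.continuous_ofReal.tendsto _).comp h1).smul_const _
    rw [Complex.ofReal_one, one_smul] at h3
    exact h3.congr fun m => (aop_basis b m w).symm
  let S : Submodule ℂ H :=
    { carrier := {x | Tendsto (fun m => aop b m x) atTop (𝓝 x)}
      zero_mem' := by simp
      add_mem' := by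
        intro x y hx hy
        have := Tendsto.add hx hy
        simpa using this
      smul_mem' := by
        intro c x hx
        have := Tendsto.const_smul hx c
        simpa using this }
  have hS : Submodule.span ℂ (Set.range b) ≤ S := by
    rw [Submodule.span_le]; rintro _ ⟨w, rfl⟩; exact hbase w
  rw [Metric.tendsto_atTop]
  intro ε hε
  have hx : x ∈ closure (Submodule.span ℂ (Set.range b) : Set H) := by
    have : x ∈ (Submodule.span ℂ (Set.range b)).topologicalClosure := by rw [b.dense_span]; trivial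
    exact this
  obtain ⟨y, hy, hd⟩ := Metric.mem_closure_iff.1 hx (ε / 3) (by linarith)
  obtain ⟨N, hN⟩ := Metric.tendsto_atTop.1 (hS hy : Tendsto (fun m => aop b m y) atTop (𝓝 y))
    (ε / 3) (by linarith)
  refine ⟨N, fun m hm => ?_⟩
  have h1 : dist (aop b m x) (aop b m y) ≤ dist x y := by
    rw [dist_eq_norm, dist_eq_norm, ← map_sub]
    exact ((aop b m).le_opNorm _).trans
      (mul_le_of_le_one_left (norm_nonneg _) (aop_props b m).2.2)
  have h2 := hN m hm
  calc dist (aop b m x) x ≤ dist (aop b m x) (aop b m y) + dist (aop b m y) y + dist y x :=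
        dist_triangle4 _ _ _ _
    _ < ε := by rw [dist_comm y x]; linarith

theorem comm_aop (m : ℕ) (i : Bool) :
    aop b m * lop b i - lop b i * aop b m = (-(m : ℂ)⁻¹) • (lop b i * pop b m) := by
  apply ext_basis b
  intro w
  rw [sub_apply, mul_apply_eq_comp, mul_apply_eq_comp, lop_basis, aop_basis, aop_basis, map_smul,
    lop_basis, smul_apply, mul_apply_eq_comp, pop_basis, ← sub_smul]
  by_cases h : w.length < m
  · rw [if_pos h, lop_basis]
    congr 1
    rw [List.length_cons, show m - w.length = (m - (w.length + 1)) + 1 by omega]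
    push_cast; ring
  · rw [if_neg h, map_zero, smul_zero, List.length_cons, show m - w.length = 0 by omega,
      show m - (w.length + 1) = 0 by omega]
    simp

theorem macNorm_comm_aop_le (m : ℕ) (i : Bool) :
    macNorm (aop b m * lop b i - lop b i * aop b m) ≤ 3 := by
  have h : nn (aop b m * lop b i - lop b i * aop b m) ≤ 3 := by
    rw [comm_aop, nn_smul]
    rcases Nat.eq_zero_or_pos m with h | h
    · subst h; simp
    have h1 : nn (lop b i * pop b m) ≤ m + 2 := by
      have := nn_mul_le (lop b i) (pop b m) 1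
      rw [mul_one] at this
      refine this.trans ?_
      have h6 : ‖(1 : H →L[ℂ] H)‖ₑ ≤ 1 := by
        rw [← ofReal_norm, ← ENNReal.ofReal_one]
        exact ENNReal.ofReal_le_ofReal ContinuousLinearMap.norm_id_le
      calc ‖lop b i‖ₑ * nn (pop b m) * ‖(1 : H →L[ℂ] H)‖ₑ ≤ 1 * (m + 2) * 1 := by
            gcongr
            · exact enorm_lop_le b i
            · exact nn_pop_le b m
        _ = m + 2 := by ring
    have h2 : ‖(-(m : ℂ)⁻¹)‖ₑ = (m : ℝ≥0∞)⁻¹ := by
      rw [← ofReal_norm, norm_neg, norm_inv, Complex.norm_natCast,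
        ENNReal.ofReal_inv_of_pos (by exact_mod_cast h), ENNReal.ofReal_natCast]
    rw [h2]
    calc (m : ℝ≥0∞)⁻¹ * nn (lop b i * pop b m) ≤ (m : ℝ≥0∞)⁻¹ * (m + 2) := by gcongr
      _ ≤ (m : ℝ≥0∞)⁻¹ * (m * 3) := by
          gcongr
          have : m + 2 ≤ m * 3 := by omega
          exact_mod_cast this
      _ = 3 := by
          rw [← mul_assoc, ENNReal.inv_mul_cancel (by exact_mod_cast h.ne') (by simp), one_mul]
  have := ENNReal.toReal_mono (by simp) h
  rw [ENNReal.toReal_ofNat] at this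
  exact this

theorem macNorm_comm_tau_le (m : ℕ) (j : Fin 4) :
    macNorm (aop b m * tau b j - tau b j * aop b m) ≤ 3 := by
  have hs : star (aop b m) = aop b m := (IsSelfAdjoint.of_nonneg (aop_props b m).1).star_eq
  have key : ∀ i, macNorm (aop b m * star (lop b i) - star (lop b i) * aop b m) ≤ 3 := by
    intro i
    have e : aop b m * star (lop b i) - star (lop b i) * aop b m
        = -star (aop b m * lop b i - lop b i * aop b m) := by
      rw [star_sub, star_mul, star_mul, hs]; abel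
    rw [e]
    unfold macNorm
    rw [nn_neg, nn_star]
    exact macNorm_comm_aop_le b m i
  fin_cases j
  · exact macNorm_comm_aop_le b m false
  · exact macNorm_comm_aop_le b m true
  · exact key false
  · exact key true

theorem kval_lt_top : kval macNorm (tau b) < ⊤ := by
  set c : ℕ → ℝ := fun m => ⨆ j, macNorm (aop b m * tau b j - tau b j * aop b m) with hc
  have hc1 : ∀ m, c m ∈ Set.Icc (0 : ℝ) 3 := by
    intro m
    constructor
    · exact Real.iSup_nonneg fun j => ENNReal.toReal_nonneg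
    · exact ciSup_le fun j => macNorm_comm_tau_le b m j
  obtain ⟨a, -, φ, hφ, hlim⟩ := isCompact_Icc.tendsto_subseq hc1
  have hadm : IsKAdmissible macNorm (tau b) (ENNReal.ofReal a) := by
    refine ⟨fun m => aop b (φ m), fun m => isFiniteRank_aop b _, fun m => (aop_props b _).1,
      fun m => (aop_props b _).2.1, (monotone_aop b).comp hφ.monotone,
      fun x => (tendsto_aop b x).comp hφ.tendsto_atTop, ?_⟩
    exact ENNReal.tendsto_ofReal hlim
  exact lt_of_le_of_lt (sInf_le (show ENNReal.ofReal a ∈ {C | IsKAdmissible macNorm (tau b) C} from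
    hadm)) ENNReal.ofReal_lt_top

end Pool.Agent.W680.DS
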