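import Mathlib

/-!
# Ky Fan norms and the Macaev type norm `∑ 2^{-m} K_{2^m}(X)`
-/

set_option autoImplicit false

open Filter Topology
open scoped ENNReal InnerProductSpace

namespace Pool.Agent.W680.DS

variable {H : Type*} [NormedAddCommGroup H] [InnerProductSpace ℂ H]

/-- The synthesis operator of the finite family `a` is a contraction. -/
def IsContractive {ι : Type*} [Fintype ι] (a : ι → H) : Prop :=
  ∀ c : ι → ℂ, ‖∑ i, c i • a i‖ ^ 2 ≤ ∑ i, ‖c i‖ ^ 2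

/-- The Ky Fan `n`-norm: the supremum of `|∑_{i<n} ⟨b_i, X a_i⟩|` over contractive families. -/
noncomputable def kf (n : ℕ) (X : H →L[ℂ] H) : ℝ≥0∞ :=
  ⨆ (a : Fin n → H) (b : Fin n → H) (_ : IsContractive a) (_ : IsContractive b),
    ‖∑ i, ⟪b i, X (a i)⟫_ℂ‖ₑ

/-- The Macaev type norm `∑_m 2^{-m} K_{2^m}(X)`. -/
noncomputable def nn (X : H →L[ℂ] H) : ℝ≥0∞ := ∑' m : ℕ, (2⁻¹ : ℝ≥0∞) ^ m * kf (2 ^ m) X

theorem le_kf {n : ℕ} (X : H →L[ℂ] H) {a b : Fin n → H} (ha : IsContractive a)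
    (hb : IsContractive b) : ‖∑ i, ⟪b i, X (a i)⟫_ℂ‖ₑ ≤ kf n X :=
  le_iSup_of_le a (le_iSup_of_le b (le_iSup_of_le ha (le_iSup_of_le hb le_rfl)))

theorem kf_le {n : ℕ} {X : H →L[ℂ] H} {C : ℝ≥0∞} (h : ∀ a b : Fin n → H, IsContractive a →
    IsContractive b → ‖∑ i, ⟪b i, X (a i)⟫_ℂ‖ₑ ≤ C) : kf n X ≤ C :=
  iSup_le fun a => iSup_le fun b => iSup_le fun ha => iSup_le fun hb => h a b ha hb

theorem IsContractive.comp_equiv {ι κ : Type*} [Fintype ι] [Fintype κ] {a : ι → H}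
    (ha : IsContractive a) (e : κ ≃ ι) : IsContractive fun k => a (e k) := by
  intro c
  have := ha fun i => c (e.symm i)
  rw [← e.sum_comp, ← e.sum_comp] at this
  simpa using this

theorem le_kf' {ι : Type*} [Fintype ι] (X : H →L[ℂ] H) {a b : ι → H} (ha : IsContractive a)
    (hb : IsContractive b) {n : ℕ} (hn : Fintype.card ι = n) :
    ‖∑ i, ⟪b i, X (a i)⟫_ℂ‖ₑ ≤ kf n X := by
  let e : Fin n ≃ ι := (Fintype.equivFinOfCardEq hn).symm
  have := le_kf X (ha.comp_equiv e) (hb.comp_equiv e)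
  rwa [e.sum_comp fun i => ⟪b i, X (a i)⟫_ℂ] at this

theorem IsContractive.norm_le {ι : Type*} [Fintype ι] {a : ι → H} (ha : IsContractive a) (i : ι) :
    ‖a i‖ ≤ 1 := by
  classical
  have := ha fun j => if j = i then 1 else 0
  simp only [ite_smul, one_smul, zero_smul, Finset.sum_ite_eq', Finset.mem_univ, if_true] at this
  have e : ∑ j, ‖(if j = i then (1 : ℂ) else 0)‖ ^ 2 = 1 := by
    rw [Finset.sum_eq_single i]
    · simp
    · intro j _ hj; simp [hj]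
    · simp
  rw [e] at this
  nlinarith [norm_nonneg (a i)]

theorem isContractive_single {x : H} (hx : ‖x‖ ≤ 1) : IsContractive fun _ : Fin 1 => x := by
  intro c
  simp only [Fin.sum_univ_one, Fin.isValue]
  rw [norm_smul, mul_pow]
  have : ‖x‖ ^ 2 ≤ 1 := by nlinarith [norm_nonneg x]
  nlinarith [sq_nonneg ‖c 0‖]

/-- analysis bound -/
theorem IsContractive.sum_inner_sq {ι : Type*} [Fintype ι] {a : ι → H} (ha : IsContractive a)
    (u : H) : ∑ i, ‖⟪a i, u⟫_ℂ‖ ^ 2 ≤ ‖u‖ ^ 2 := by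
  set s : ℝ := ∑ i, ‖⟪a i, u⟫_ℂ‖ ^ 2 with hs
  have hs0 : 0 ≤ s := Finset.sum_nonneg fun i _ => by positivity
  have h1 : ‖∑ i, ⟪a i, u⟫_ℂ • a i‖ ^ 2 ≤ s := ha fun i => ⟪a i, u⟫_ℂ
  have h2 : (s : ℂ) = ⟪∑ i, ⟪a i, u⟫_ℂ • a i, u⟫_ℂ := by
    rw [sum_inner, hs]
    push_cast
    refine Finset.sum_congr rfl fun i _ => ?_
    rw [inner_smul_left, mul_comm, Complex.mul_conj, Complex.normSq_eq_norm_sq]
    push_cast; rfl
  have h3 : s ≤ ‖∑ i, ⟪a i, u⟫_ℂ • a i‖ * ‖u‖ := by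
    have := norm_inner_le_norm (𝕜 := ℂ) (∑ i, ⟪a i, u⟫_ℂ • a i) u
    rw [← h2, Complex.norm_real, Real.norm_of_nonneg hs0] at this
    exact this
  have h4 : s ^ 2 ≤ s * ‖u‖ ^ 2 := by
    calc s ^ 2 ≤ (‖∑ i, ⟪a i, u⟫_ℂ • a i‖ * ‖u‖) ^ 2 := pow_le_pow_left₀ hs0 h3 2
      _ = ‖∑ i, ⟪a i, u⟫_ℂ • a i‖ ^ 2 * ‖u‖ ^ 2 := mul_pow _ _ _
      _ ≤ s * ‖u‖ ^ 2 := mul_le_mul_of_nonneg_right h1 (by positivity)
  rcases hs0.eq_or_lt with h | h
  · rw [← h]; positivity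
  · nlinarith

theorem norm_le_kf_one (X : H →L[ℂ] H) : ‖X‖ₑ ≤ kf 1 X := by
  by_cases hf : kf 1 X = ⊤
  · rw [hf]; exact le_top
  rw [← ENNReal.ofReal_toReal hf, ← ofReal_norm]
  apply ENNReal.ofReal_le_ofReal
  have key : ∀ x y : H, ‖x‖ ≤ 1 → ‖y‖ ≤ 1 → ‖⟪y, X x⟫_ℂ‖ ≤ (kf 1 X).toReal := by
    intro x y hx hy
    have := le_kf X (isContractive_single hx) (isContractive_single hy)
    simp only [Fin.sum_univ_one] at this
    rw [← ofReal_norm, ENNReal.ofReal_le_iff_le_toReal hf] at this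
    exact this
  have h0 : 0 ≤ (kf 1 X).toReal := ENNReal.toReal_nonneg
  apply ContinuousLinearMap.opNorm_le_of_unit_norm (𝕜 := ℂ) h0
  intro x hx
  by_cases hz : X x = 0
  · rw [hz, norm_zero]; exact h0
  have hn : ‖X x‖ ≠ 0 := norm_ne_zero_iff.2 hz
  have := key x (((‖X x‖⁻¹ : ℝ) : ℂ) • X x) hx.le (by
    rw [norm_smul, Complex.norm_real, norm_inv, norm_norm, inv_mul_cancel₀ hn])
  rw [inner_smul_left, inner_self_eq_norm_sq_to_K, Complex.conj_ofReal, norm_mul, Complex.norm_real,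
    norm_inv, norm_norm, norm_pow] at this
  simp only [Complex.coe_algebraMap, Complex.norm_real, norm_norm] at this
  rw [pow_two, ← mul_assoc, inv_mul_cancel₀ hn, one_mul] at this
  exact this

theorem kf_le_nn (m : ℕ) (X : H →L[ℂ] H) : (2⁻¹ : ℝ≥0∞) ^ m * kf (2 ^ m) X ≤ nn X :=
  ENNReal.le_tsum (f := fun m : ℕ => (2⁻¹ : ℝ≥0∞) ^ m * kf (2 ^ m) X) m

theorem norm_le_nn (X : H →L[ℂ] H) : ‖X‖ₑ ≤ nn X := by
  have := kf_le_nn 0 X
  rw [pow_zero, pow_zero, one_mul] at this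
  exact (norm_le_kf_one X).trans this

theorem kf_add (n : ℕ) (X Y : H →L[ℂ] H) : kf n (X + Y) ≤ kf n X + kf n Y := by
  refine kf_le fun a b ha hb => ?_
  have e : ∑ i, ⟪b i, (X + Y) (a i)⟫_ℂ = ∑ i, ⟪b i, X (a i)⟫_ℂ + ∑ i, ⟪b i, Y (a i)⟫_ℂ := by
    rw [← Finset.sum_add_distrib]
    exact Finset.sum_congr rfl fun i _ => by rw [add_apply, inner_add_right]
  rw [e]
  exact (enorm_add_le _ _).trans (add_le_add (le_kf X ha hb) (le_kf Y ha hb))

theorem kf_smul_le (n : ℕ) (c : ℂ) (X : H →L[ℂ] H) : kf n (c • X) ≤ ‖c‖ₑ * kf n X := by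
  refine kf_le fun a b ha hb => ?_
  have e : ∑ i, ⟪b i, (c • X) (a i)⟫_ℂ = c * ∑ i, ⟪b i, X (a i)⟫_ℂ := by
    rw [Finset.mul_sum]
    exact Finset.sum_congr rfl fun i _ => by rw [smul_apply, inner_smul_right]
  rw [e, enorm_mul]
  exact mul_le_mul_right (le_kf X ha hb) _

theorem kf_le_nsmul (n : ℕ) (X : H →L[ℂ] H) : kf n X ≤ n * ‖X‖ₑ := by
  refine kf_le fun a b ha hb => ?_
  refine (enorm_sum_le _ _).trans ?_
  calc ∑ i, ‖⟪b i, X (a i)⟫_ℂ‖ₑ ≤ ∑ _i : Fin n, ‖X‖ₑ := by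
        refine Finset.sum_le_sum fun i _ => ?_
        rw [← ofReal_norm, ← ofReal_norm]
        apply ENNReal.ofReal_le_ofReal
        calc ‖⟪b i, X (a i)⟫_ℂ‖ ≤ ‖b i‖ * ‖X (a i)‖ := norm_inner_le_norm _ _
          _ ≤ 1 * (‖X‖ * 1) := by
              apply mul_le_mul (hb.norm_le i) _ (norm_nonneg _) zero_le_one
              exact (X.le_opNorm _).trans (mul_le_mul_of_nonneg_left (ha.norm_le i) (norm_nonneg _))
          _ = ‖X‖ := by ring
    _ = n * ‖X‖ₑ := by simp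

theorem IsContractive.map {ι : Type*} [Fintype ι] {a : ι → H} (ha : IsContractive a)
    {B : H →L[ℂ] H} (hB : ‖B‖ ≤ 1) : IsContractive fun i => B (a i) := by
  intro c
  have e : ∑ i, c i • B (a i) = B (∑ i, c i • a i) := by simp [map_sum]
  rw [e]
  refine le_trans ?_ (ha c)
  have h1 : ‖B (∑ i, c i • a i)‖ ≤ ‖∑ i, c i • a i‖ := by
    refine (B.le_opNorm _).trans ?_
    exact mul_le_of_le_one_left (norm_nonneg _) hB
  exact pow_le_pow_left₀ (norm_nonneg _) h1 2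

theorem kf_mul_right_le (n : ℕ) (X B : H →L[ℂ] H) : kf n (X * B) ≤ kf n X * ‖B‖ₑ := by
  by_cases hB : B = 0
  · subst hB
    rw [mul_zero]
    refine (kf_le_nsmul n _).trans ?_
    rw [← ofReal_norm, norm_zero, ENNReal.ofReal_zero, mul_zero, mul_zero]
  have hn : ‖B‖ ≠ 0 := norm_ne_zero_iff.2 hB
  set B' : H →L[ℂ] H := ((‖B‖⁻¹ : ℝ) : ℂ) • B with hB'
  have h1 : ‖B'‖ ≤ 1 := by
    rw [hB', norm_smul, Complex.norm_real, norm_inv, norm_norm, inv_mul_cancel₀ hn]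
  have h2 : X * B = ((‖B‖ : ℝ) : ℂ) • (X * B') := by
    rw [hB', mul_smul_comm, smul_smul, ← Complex.ofReal_mul, mul_inv_cancel₀ hn,
      Complex.ofReal_one, one_smul]
  rw [h2]
  refine (kf_smul_le n _ _).trans ?_
  rw [mul_comm]
  have h3 : ‖((‖B‖ : ℝ) : ℂ)‖ₑ = ‖B‖ₑ := by
    rw [← ofReal_norm, ← ofReal_norm, Complex.norm_real, norm_norm]
  rw [h3]
  refine mul_le_mul_left ?_ _
  exact kf_le fun a b ha hb => le_kf X (ha.map h1) hb

variable [CompleteSpace H]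

theorem kf_star_le (n : ℕ) (X : H →L[ℂ] H) : kf n (star X) ≤ kf n X := by
  refine kf_le fun a b ha hb => ?_
  have e : ∑ i, ⟪b i, (star X) (a i)⟫_ℂ = (starRingEnd ℂ) (∑ i, ⟪a i, X (b i)⟫_ℂ) := by
    rw [map_sum]
    refine Finset.sum_congr rfl fun i _ => ?_
    rw [ContinuousLinearMap.star_eq_adjoint, ContinuousLinearMap.adjoint_inner_right,
      inner_conj_symm]
  rw [e]
  have h : ‖(starRingEnd ℂ) (∑ i, ⟪a i, X (b i)⟫_ℂ)‖ₑ = ‖∑ i, ⟪a i, X (b i)⟫_ℂ‖ₑ := by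
    rw [← ofReal_norm, ← ofReal_norm, RCLike.norm_conj]
  rw [h]
  exact le_kf X hb ha

theorem kf_star (n : ℕ) (X : H →L[ℂ] H) : kf n (star X) = kf n X :=
  le_antisymm (kf_star_le n X) (by simpa using kf_star_le n (star X))

theorem kf_mul_left_le (n : ℕ) (X A : H →L[ℂ] H) : kf n (A * X) ≤ ‖A‖ₑ * kf n X := by
  rw [← kf_star n (A * X), star_mul, mul_comm ‖A‖ₑ, ← kf_star n X]
  refine (kf_mul_right_le n _ _).trans (le_of_eq ?_)
  congr 1
  rw [← ofReal_norm, ← ofReal_norm, norm_star]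

omit [CompleteSpace H] in
theorem nn_add (X Y : H →L[ℂ] H) : nn (X + Y) ≤ nn X + nn Y := by
  unfold nn
  rw [← ENNReal.tsum_add]
  refine ENNReal.tsum_le_tsum fun m => ?_
  rw [← mul_add]
  exact mul_le_mul_right (kf_add _ X Y) _

omit [CompleteSpace H] in
theorem nn_smul_le (c : ℂ) (X : H →L[ℂ] H) : nn (c • X) ≤ ‖c‖ₑ * nn X := by
  unfold nn
  rw [← ENNReal.tsum_mul_left]
  refine ENNReal.tsum_le_tsum fun m => ?_
  rw [mul_left_comm]
  exact mul_le_mul_right (kf_smul_le _ c X) _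

theorem nn_mul_le (A X B : H →L[ℂ] H) : nn (A * X * B) ≤ ‖A‖ₑ * nn X * ‖B‖ₑ := by
  unfold nn
  rw [← ENNReal.tsum_mul_left, ← ENNReal.tsum_mul_right]
  refine ENNReal.tsum_le_tsum fun m => ?_
  have h := (kf_mul_right_le (2 ^ m) (A * X) B).trans (mul_le_mul_left (kf_mul_left_le (2 ^ m) X A) _)
  calc _ ≤ (2⁻¹ : ℝ≥0∞) ^ m * (‖A‖ₑ * kf (2 ^ m) X * ‖B‖ₑ) := mul_le_mul_right h _
    _ = _ := by ring

theorem nn_star (X : H →L[ℂ] H) : nn (star X) = nn X := by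
  unfold nn; simp_rw [kf_star]

omit [CompleteSpace H] in
theorem nn_zero : nn (0 : H →L[ℂ] H) = 0 := by
  have := nn_smul_le (0 : ℂ) (0 : H →L[ℂ] H)
  simpa using this

omit [CompleteSpace H] in
theorem nn_smul (c : ℂ) (X : H →L[ℂ] H) : nn (c • X) = ‖c‖ₑ * nn X := by
  by_cases hc : c = 0
  · subst hc; rw [zero_smul, nn_zero]; simp
  refine le_antisymm (nn_smul_le c X) ?_
  have h1 := nn_smul_le c⁻¹ (c • X)
  rw [smul_smul, inv_mul_cancel₀ hc, one_smul] at h1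
  calc ‖c‖ₑ * nn X ≤ ‖c‖ₑ * (‖c⁻¹‖ₑ * nn (c • X)) := mul_le_mul_right h1 _
    _ = nn (c • X) := by
        rw [← mul_assoc, ← enorm_mul, mul_inv_cancel₀ hc]; simp

omit [CompleteSpace H] in
theorem nn_neg (X : H →L[ℂ] H) : nn (-X) = nn X := by
  have := nn_smul (-1 : ℂ) X
  rw [neg_one_smul] at this
  rw [this]; simp

omit [CompleteSpace H] in
theorem nn_sum_le {ι : Type*} (s : Finset ι) (X : ι → H →L[ℂ] H) :
    nn (∑ i ∈ s, X i) ≤ ∑ i ∈ s, nn (X i) := by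
  classical
  induction s using Finset.induction_on with
  | empty => simp [nn_zero]
  | insert a s ha ih =>
    rw [Finset.sum_insert ha, Finset.sum_insert ha]
    exact (nn_add _ _).trans (add_le_add_right ih _)

omit [CompleteSpace H] in
theorem lsc_nn : LowerSemicontinuous (nn : (H →L[ℂ] H) → ℝ≥0∞) := by
  apply lowerSemicontinuous_tsum
  intro m
  have h1 : LowerSemicontinuous (kf (2 ^ m) : (H →L[ℂ] H) → ℝ≥0∞) := by
    refine lowerSemicontinuous_iSup fun a => lowerSemicontinuous_iSup fun b =>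
      lowerSemicontinuous_iSup fun _ => lowerSemicontinuous_iSup fun _ => ?_
    apply Continuous.lowerSemicontinuous
    fun_prop
  exact (ENNReal.continuous_const_mul (by simp)).comp_lowerSemicontinuous h1 fun x y h => mul_le_mul_right h _

end Pool.Agent.W680.DS
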