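import Pool.Agent.W680.DS.Core

/-!
# Definitions for the statement: `k_I(τ)`, `E(τ; I)`, countable degree-1 saturation
-/

set_option autoImplicit false

open Filter Topology
open scoped ENNReal InnerProductSpace

namespace Pool.Agent.W680.DS

variable {H : Type*} [NormedAddCommGroup H] [InnerProductSpace ℂ H] [CompleteSpace H]

/-- `C` is the limit of `max_j |[A_m, T_j]|` for some finite rank `0 ≤ A_m ≤ 1` increasing to `1`. -/
def IsKAdmissible (nrm : (H →L[ℂ] H) → ℝ) {n : ℕ} (τ : Fin n → H →L[ℂ] H) (C : ℝ≥0∞) : Prop :=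
  ∃ A : ℕ → H →L[ℂ] H, (∀ m, IsFiniteRank (A m)) ∧ (∀ m, 0 ≤ A m) ∧ (∀ m, A m ≤ 1) ∧
    Monotone A ∧ (∀ x, Tendsto (fun m => A m x) atTop (𝓝 x)) ∧
    Tendsto (fun m => ENNReal.ofReal (⨆ j, nrm (A m * τ j - τ j * A m))) atTop (𝓝 C)

/-- `k_I(τ)` -/
noncomputable def kval (nrm : (H →L[ℂ] H) → ℝ) {n : ℕ} (τ : Fin n → H →L[ℂ] H) : ℝ≥0∞ :=
  sInf {C | IsKAdmissible nrm τ C}

/-- `E(τ; I)`, the operators commuting with `τ` modulo the ideal `I` -/
def commMod (I : Submodule ℂ (H →L[ℂ] H)) {n : ℕ} (τ : Fin n → H →L[ℂ] H) : Set (H →L[ℂ] H) :=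
  {X | ∀ j, X * τ j - τ j * X ∈ I}

/-- `*`-polynomials of degree at most `1` in the variables `x 0, x 1, …`: a constant plus finitely
many terms `a * x i * c` (the Boolean is `false`) or `a * star (x i) * c` (the Boolean is `true`). -/
structure AffinePoly (A : Type*) where
  const : A
  terms : List (A × ℕ × Bool × A)

/-- the value of a `*`-polynomial of degree at most `1` -/
def AffinePoly.eval {A : Type*} [Ring A] [Star A] (P : AffinePoly A) (x : ℕ → A) : A :=
  P.const + (P.terms.map fun t =>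
    t.1 * (if t.2.2.1 then star (x t.2.1) else x t.2.1) * t.2.2.2).sum

/-- the coefficients of `P` lie in the set `E` -/
def AffinePoly.CoeffsIn {A : Type*} (P : AffinePoly A) (E : Set A) : Prop :=
  P.const ∈ E ∧ ∀ t ∈ P.terms, t.1 ∈ E ∧ t.2.2.2 ∈ E

/-- For a `*`-subalgebra `E` of `B(H)`: the image `p(E)` in the Calkin algebra is countably degree-1
saturated. Elements of `p(E)` are represented by elements of `E`, and the norm of `p(X)` in the
Calkin algebra is the distance `essNorm X` of `X` to the compact operators. -/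
def ImageDegreeOneSaturated (E : Set (H →L[ℂ] H)) : Prop :=
  ∀ (P : ℕ → AffinePoly (H →L[ℂ] H)) (K : ℕ → Set ℝ), (∀ k, (P k).CoeffsIn E) →
    (∀ k, IsCompact (K k)) →
    (∀ N : ℕ, ∃ x : ℕ → H →L[ℂ] H, (∀ i, x i ∈ E ∧ essNorm (x i) ≤ 1) ∧
      ∀ k ≤ N, ∃ r ∈ K k, |essNorm ((P k).eval x) - r| < 1 / (N + 1)) →
    ∃ x : ℕ → H →L[ℂ] H, (∀ i, x i ∈ E ∧ essNorm (x i) ≤ 1) ∧ ∀ k, essNorm ((P k).eval x) ∈ K k

variable (b : HilbertBasis (List Bool) ℂ H)

/-- the `4`-tuple of the two creation operators and their adjoints -/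
noncomputable def tau : Fin 4 → H →L[ℂ] H :=
  ![lop b false, lop b true, star (lop b false), star (lop b true)]

theorem mem_commMod_tau {X : H →L[ℂ] H}
    (h1 : ∀ i, X * lop b i - lop b i * X ∈ (mac : Submodule ℂ (H →L[ℂ] H)))
    (h2 : ∀ i, X * star (lop b i) - star (lop b i) * X ∈ (mac : Submodule ℂ (H →L[ℂ] H))) :
    X ∈ commMod mac (tau b) := by
  intro j
  fin_cases j
  · exact h1 false
  · exact h1 true
  · exact h2 false
  · exact h2 true

theorem sub_psi_mem {X : H →L[ℂ] H} (hX : X ∈ commMod mac (tau b)) :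
    X - psi b X ∈ (mac : Submodule ℂ (H →L[ℂ] H)) := by
  have h0 : X * lop b false - lop b false * X ∈ (mac : Submodule ℂ (H →L[ℂ] H)) := hX 0
  have h1 : X * lop b true - lop b true * X ∈ (mac : Submodule ℂ (H →L[ℂ] H)) := hX 1
  have key : ∀ i, X * lop b i - lop b i * X ∈ (mac : Submodule ℂ (H →L[ℂ] H)) →
      star (lop b i) * X * lop b i - X ∈ (mac : Submodule ℂ (H →L[ℂ] H)) := by
    intro i hi
    have h2 := mul_mem_mac hi (star (lop b i)) 1
    have h3 : star (lop b i) * lop b i = 1 := star_vop_mul_vop b _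
    have e : star (lop b i) * (X * lop b i - lop b i * X) * 1 = star (lop b i) * X * lop b i - X := by
      rw [mul_one, mul_sub, ← mul_assoc, ← mul_assoc, h3, one_mul]
    rwa [e] at h2
  have h4 := Submodule.smul_mem mac (-(1 / 2) : ℂ) (Submodule.add_mem _ (key false h0) (key true h1))
  have e : X - psi b X = (-(1 / 2) : ℂ) • ((star (lop b false) * X * lop b false - X)
      + (star (lop b true) * X * lop b true - X)) := by
    rw [psi_apply]
    module
  rw [e]; exact h4

theorem qop_mem (n : ℕ) : qop b n ∈ commMod mac (tau b) := by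
  refine mem_commMod_tau b (fun i => finiteRank_mem_mac (isFiniteRank_comm_qop b n i)) fun i => ?_
  have h := (isFiniteRank_comm_qop b n i).star
  have hq : star (qop b n) = qop b n := by
    unfold qop; rw [star_mul, star_star]
  rw [star_sub, star_mul, star_mul, hq] at h
  have := finiteRank_mem_mac h.neg
  rwa [neg_sub] at this

theorem zero_mem_commMod {n : ℕ} (I : Submodule ℂ (H →L[ℂ] H)) (τ : Fin n → H →L[ℂ] H) :
    (0 : H →L[ℂ] H) ∈ commMod I τ := by
  intro j; simp

theorem one_mem_commMod {n : ℕ} (I : Submodule ℂ (H →L[ℂ] H)) (τ : Fin n → H →L[ℂ] H) :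
    (1 : H →L[ℂ] H) ∈ commMod I τ := by
  intro j; simp

theorem neg_one_mem_commMod {n : ℕ} (I : Submodule ℂ (H →L[ℂ] H)) (τ : Fin n → H →L[ℂ] H) :
    (-1 : H →L[ℂ] H) ∈ commMod I τ := by
  intro j; simp

theorem not_saturated : ¬ ImageDegreeOneSaturated (commMod mac (tau b)) := by
  intro hsat
  set P : ℕ → AffinePoly (H →L[ℂ] H) := fun k => match k with
    | 0 => ⟨0, [(1, 0, false, 1)]⟩
    | k + 1 => ⟨0, [(1, 0, false, qop b k), (-1, 0, false, 1)]⟩ with hP
  set K : ℕ → Set ℝ := fun k => match k with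
    | 0 => {1}
    | _ + 1 => {0} with hK
  have heval0 : ∀ x : ℕ → H →L[ℂ] H, (P 0).eval x = x 0 := by
    intro x; simp [hP, AffinePoly.eval]
  have heval1 : ∀ (k : ℕ) (x : ℕ → H →L[ℂ] H), (P (k + 1)).eval x = x 0 * qop b k - x 0 := by
    intro k x; simp [hP, AffinePoly.eval, sub_eq_add_neg]
  have hco : ∀ k, (P k).CoeffsIn (commMod mac (tau b)) := by
    intro k
    cases k with
    | zero =>
      refine ⟨zero_mem_commMod _ _, ?_⟩
      intro t ht
      simp only [hP, List.mem_singleton] at ht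
      subst ht
      exact ⟨one_mem_commMod _ _, one_mem_commMod _ _⟩
    | succ k =>
      refine ⟨zero_mem_commMod _ _, ?_⟩
      intro t ht
      simp only [hP, List.mem_cons, List.not_mem_nil, or_false] at ht
      rcases ht with rfl | rfl
      · exact ⟨one_mem_commMod _ _, qop_mem b k⟩
      · exact ⟨neg_one_mem_commMod _ _, one_mem_commMod _ _⟩
  have hcomp : ∀ k, IsCompact (K k) := by
    intro k
    cases k with
    | zero => exact isCompact_singleton
    | succ k => exact isCompact_singleton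
  obtain ⟨x, hx, hx2⟩ := hsat P K hco hcomp (by
    intro N
    refine ⟨fun _ => qop b N, fun _ => ⟨qop_mem b N, (essNorm_qop b N).le⟩, fun k hk => ?_⟩
    cases k with
    | zero =>
      refine ⟨1, rfl, ?_⟩
      rw [heval0, essNorm_qop, sub_self, abs_zero]
      positivity
    | succ k =>
      refine ⟨0, rfl, ?_⟩
      rw [heval1, qop_mul_qop b (by omega : k ≤ N), sub_self,
        essNorm_eq_zero.2 isCompactOperator_zero, sub_self, abs_zero]
      positivity)
  have h1 : essNorm (x 0) = 1 := by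
    have := hx2 0
    rw [heval0] at this
    exact this
  have h2 : ∀ k, IsCompactOperator (x 0 * qop b k - x 0) := by
    intro k
    have := hx2 (k + 1)
    rw [heval1] at this
    exact essNorm_eq_zero.1 this
  have h3 := compact_of_fibre b (sub_psi_mem b (hx 0).1) h2
  rw [essNorm_eq_zero.2 h3] at h1
  exact zero_ne_one h1

end Pool.Agent.W680.DS
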