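import Pool.Agent.W680.DS.KVal

/-!
# The counterexample on every separable infinite-dimensional Hilbert space
-/

set_option autoImplicit false

open Filter Topology
open scoped ENNReal InnerProductSpace

namespace Pool.Agent.W680.DS

variable {H : Type*} [NormedAddCommGroup H] [InnerProductSpace ℂ H] [CompleteSpace H]

theorem exists_word_basis [TopologicalSpace.SeparableSpace H] (hH : ¬ FiniteDimensional ℂ H) :
    Nonempty (HilbertBasis (List Bool) ℂ H) := by
  classical
  obtain ⟨w, b, -⟩ := exists_hilbertBasis ℂ H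
  have hdist : ∀ i j : w, i ≠ j → 1 < dist (b i) (b j) := by
    intro i j hij
    have h1 : ‖b i - b j‖ ^ 2 = 2 := by
      rw [norm_sub_sq (𝕜 := ℂ), b.orthonormal.1, b.orthonormal.1, inner_basis, if_neg hij]
      simp; norm_num
    rw [dist_eq_norm]
    nlinarith [norm_nonneg (b i - b j)]
  have hcount : Countable w := by
    refine Pairwise.countable_of_isOpen_disjoint (s := fun i : w => Metric.ball (b i) (1 / 2)) ?_
      (fun i => Metric.isOpen_ball) fun i => ⟨b i, Metric.mem_ball_self (by norm_num)⟩
    intro i j hij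
    apply Metric.ball_disjoint_ball
    have := hdist i j hij
    linarith
  have hinf : Infinite w := by
    by_contra hfin
    rw [not_infinite_iff_finite] at hfin
    have : Fintype w := Fintype.ofFinite w
    exact hH (b.toOrthonormalBasis.toBasis.finiteDimensional_of_finite)
  obtain ⟨e⟩ : Nonempty (List Bool ≃ w) := nonempty_equiv_of_countable
  refine ⟨HilbertBasis.mk (v := fun u => b (e u)) (b.orthonormal.comp e e.injective) ?_⟩
  have hr : Set.range (fun u => b (e u)) = Set.range b := e.surjective.range_comp b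
  rw [hr, b.dense_span]

/-- **Main theorem.** -/
theorem main [TopologicalSpace.SeparableSpace H] (hH : ¬ FiniteDimensional ℂ H) :
    ∃ (I : Submodule ℂ (H →L[ℂ] H)) (nrm : (H →L[ℂ] H) → ℝ) (τ : Fin 4 → H →L[ℂ] H),
      IsNormedIdeal I nrm ∧ FiniteRankDense I nrm ∧ (∀ j, ∃ j', τ j' = star (τ j)) ∧
      0 < kval nrm τ ∧ kval nrm τ < ⊤ ∧ ¬ ImageDegreeOneSaturated (commMod I τ) := by
  obtain ⟨b⟩ := exists_word_basis hH
  refine ⟨mac, macNorm, tau b, isNormedIdeal_mac, finiteRankDense_mac, ?_,
    one_pos.trans_le (one_le_kval b), kval_lt_top b, not_saturated b⟩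
  intro j
  fin_cases j
  · exact ⟨2, rfl⟩
  · exact ⟨3, rfl⟩
  · exact ⟨0, (star_star (lop b false)).symm⟩
  · exact ⟨1, (star_star (lop b true)).symm⟩

end Pool.Agent.W680.DS
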