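import Pool.Agent.W680.DS.Ideal

/-!
# Left creation operators on `ℓ²` of the words, and the averaging map
-/

set_option autoImplicit false

open Filter Topology
open scoped ENNReal InnerProductSpace

namespace Pool.Agent.W680.DS

variable {H : Type*} [NormedAddCommGroup H] [InnerProductSpace ℂ H] [CompleteSpace H]

section basis

variable {ι : Type*} (b : HilbertBasis ι ℂ H)

include b in
omit [CompleteSpace H] in
theorem ext_basis {S T : H →L[ℂ] H} (h : ∀ i, S (b i) = T (b i)) : S = T := by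
  refine ContinuousLinearMap.ext_on (s := Set.range b) ?_ ?_
  · exact Submodule.dense_iff_topologicalClosure_eq_top.2 b.dense_span
  · rintro _ ⟨i, rfl⟩; exact h i

include b in
omit [CompleteSpace H] in
theorem ext_vec {x y : H} (h : ∀ i, ⟪b i, x⟫_ℂ = ⟪b i, y⟫_ℂ) : x = y := by
  apply b.repr.injective
  ext i
  rw [b.repr_apply_apply, b.repr_apply_apply, h i]

omit [CompleteSpace H] in
theorem inner_basis [DecidableEq ι] (i j : ι) : ⟪b i, b j⟫_ℂ = if i = j then 1 else 0 :=
  orthonormal_iff_ite.1 b.orthonormal i j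

/-- the isometry with `b i ↦ b (φ i)` -/
noncomputable def vop {φ : ι → ι} (hφ : Function.Injective φ) : H →L[ℂ] H :=
  ((b.orthonormal.comp φ hφ).orthogonalFamily.linearIsometry.comp
    b.repr.toLinearIsometry).toContinuousLinearMap

theorem vop_basis {φ : ι → ι} (hφ : Function.Injective φ) (i : ι) : vop b hφ (b i) = b (φ i) := by
  classical
  show (b.orthonormal.comp φ hφ).orthogonalFamily.linearIsometry (b.repr (b i)) = _
  rw [b.repr_self, OrthogonalFamily.linearIsometry_apply_single]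
  simp

theorem inner_vop_vop {φ : ι → ι} (hφ : Function.Injective φ) (x y : H) :
    ⟪vop b hφ x, vop b hφ y⟫_ℂ = ⟪x, y⟫_ℂ :=
  LinearIsometry.inner_map_map _ x y

theorem norm_vop_le {φ : ι → ι} (hφ : Function.Injective φ) : ‖vop b hφ‖ ≤ 1 :=
  LinearIsometry.norm_toContinuousLinearMap_le _

theorem norm_vop_apply {φ : ι → ι} (hφ : Function.Injective φ) (x : H) : ‖vop b hφ x‖ = ‖x‖ :=
  LinearIsometry.norm_map _ x

theorem star_vop_mul_vop {φ : ι → ι} (hφ : Function.Injective φ) :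
    star (vop b hφ) * vop b hφ = 1 := by
  ext x
  refine ext_inner_left ℂ fun y => ?_
  rw [mul_apply_eq_comp, ContinuousLinearMap.star_eq_adjoint,
    ContinuousLinearMap.adjoint_inner_right, inner_vop_vop]
  rfl

theorem star_vop_basis {φ : ι → ι} (hφ : Function.Injective φ) (i : ι) :
    star (vop b hφ) (b (φ i)) = b i := by
  rw [← vop_basis b hφ i, ← mul_apply_eq_comp, star_vop_mul_vop]
  rfl

theorem star_vop_basis_of_notMem {φ : ι → ι} (hφ : Function.Injective φ) {j : ι}
    (hj : j ∉ Set.range φ) : star (vop b hφ) (b j) = 0 := by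
  classical
  apply ext_vec b
  intro i
  rw [ContinuousLinearMap.star_eq_adjoint, ContinuousLinearMap.adjoint_inner_right, vop_basis,
    inner_basis, inner_zero_right, if_neg]
  rintro rfl
  exact hj ⟨i, rfl⟩

theorem inner_vop_vop_of_disjoint {φ ψ : ι → ι} (hφ : Function.Injective φ)
    (hψ : Function.Injective ψ) (h : ∀ i j, φ i ≠ ψ j) (x y : H) :
    ⟪vop b hφ x, vop b hψ y⟫_ℂ = 0 := by
  have h1 : star (vop b hφ) * vop b hψ = 0 := by
    apply ext_basis b
    intro j
    rw [mul_apply_eq_comp, vop_basis, star_vop_basis_of_notMem]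
    · rfl
    · rintro ⟨i, hi⟩; exact h i j hi
  rw [← ContinuousLinearMap.adjoint_inner_right, ← ContinuousLinearMap.star_eq_adjoint,
    ← mul_apply_eq_comp, h1]
  simp

end basis

/-- Positivity of diagonal operators. -/
theorem nonneg_of_diag {ι : Type*} (b : HilbertBasis ι ℂ H) {T : H →L[ℂ] H} {t : ι → ℝ}
    (ht : ∀ i, 0 ≤ t i) (hT : ∀ i, T (b i) = (t i : ℂ) • b i) : 0 ≤ T := by
  classical
  have hs : star T = T := by
    apply ext_basis b
    intro j
    apply ext_vec b
    intro i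
    rw [ContinuousLinearMap.star_eq_adjoint, ContinuousLinearMap.adjoint_inner_right, hT, hT,
      inner_smul_left, inner_smul_right, inner_basis, Complex.conj_ofReal]
    split_ifs with h
    · rw [h]
    · simp
  rw [ContinuousLinearMap.nonneg_iff_isPositive, ContinuousLinearMap.isPositive_iff']
  refine ⟨hs, fun x => ?_⟩
  have h1 := b.hasSum_inner_mul_inner (T x) x
  have h2 : ∀ i, ⟪T x, b i⟫_ℂ * ⟪b i, x⟫_ℂ = ((t i * ‖⟪b i, x⟫_ℂ‖ ^ 2 : ℝ) : ℂ) := by
    intro i
    have h3 : ⟪T x, b i⟫_ℂ = t i * ⟪x, b i⟫_ℂ := by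
      have : ⟪T x, b i⟫_ℂ = ⟪x, T (b i)⟫_ℂ := by
        rw [← ContinuousLinearMap.adjoint_inner_right, ← ContinuousLinearMap.star_eq_adjoint, hs]
      rw [this, hT, inner_smul_right]
    rw [h3, ← inner_conj_symm x (b i), mul_assoc, mul_comm ((starRingEnd ℂ) _), Complex.mul_conj,
      Complex.normSq_eq_norm_sq]
    push_cast; ring
  simp_rw [h2] at h1
  rw [← h1.tsum_eq, ← Complex.ofReal_tsum]
  rw [Complex.zero_le_real]
  exact tsum_nonneg fun i => mul_nonneg (ht i) (by positivity)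

/-! ### Words -/

variable (b : HilbertBasis (List Bool) ℂ H)

/-- the left creation operators `b w ↦ b (i :: w)` -/
noncomputable def lop (i : Bool) : H →L[ℂ] H := vop b (List.cons_injective (a := i))

theorem lop_basis (i : Bool) (w : List Bool) : lop b i (b w) = b (i :: w) := vop_basis b _ w

theorem star_lop_cons (i : Bool) (w : List Bool) : star (lop b i) (b (i :: w)) = b w :=
  star_vop_basis b _ w

theorem star_lop_ne {i j : Bool} (h : i ≠ j) (w : List Bool) : star (lop b i) (b (j :: w)) = 0 :=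
  star_vop_basis_of_notMem b _ (by rintro ⟨u, hu⟩; exact h (List.cons.inj hu).1)

theorem star_lop_nil (i : Bool) : star (lop b i) (b []) = 0 :=
  star_vop_basis_of_notMem b _ (by rintro ⟨u, hu⟩; exact List.cons_ne_nil _ _ hu)

theorem norm_lop_le (i : Bool) : ‖lop b i‖ ≤ 1 := norm_vop_le b _

/-- `Ψ(X) = (1/2) ∑ L_i^* X L_i` -/
noncomputable def psi : Module.End ℂ (H →L[ℂ] H) where
  toFun X := (1 / 2 : ℂ) • (star (lop b false) * X * lop b false + star (lop b true) * X * lop b true)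
  map_add' X Y := by
    rw [← smul_add]; congr 1; rw [mul_add, mul_add, add_mul, add_mul]; abel
  map_smul' c X := by
    simp only [RingHom.id_apply, mul_smul_comm, smul_mul_assoc]
    rw [← smul_add, smul_comm]

theorem psi_apply (X : H →L[ℂ] H) : psi b X
    = (1 / 2 : ℂ) • (star (lop b false) * X * lop b false + star (lop b true) * X * lop b true) := rfl

theorem inner_psi (X : H →L[ℂ] H) (x y : H) : ⟪y, psi b X x⟫_ℂ
    = (1 / 2 : ℂ) * (⟪lop b false y, X (lop b false x)⟫_ℂ + ⟪lop b true y, X (lop b true x)⟫_ℂ) := by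
  rw [psi_apply, smul_apply, inner_smul_right, add_apply, inner_add_right]
  simp only [mul_apply_eq_comp, ContinuousLinearMap.star_eq_adjoint,
    ContinuousLinearMap.adjoint_inner_right]

theorem isContractive_lop {n : ℕ} {a : Fin n → H} (ha : IsContractive a) :
    IsContractive fun p : Bool × Fin n => lop b p.1 (a p.2) := by
  intro c
  have e : ∑ p : Bool × Fin n, c p • lop b p.1 (a p.2)
      = lop b true (∑ k, c (true, k) • a k) + lop b false (∑ k, c (false, k) • a k) := by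
    rw [Fintype.sum_prod_type, Fintype.sum_bool, map_sum, map_sum]
    simp only [map_smul]
  have e2 : ∑ p : Bool × Fin n, ‖c p‖ ^ 2 = ∑ k, ‖c (true, k)‖ ^ 2 + ∑ k, ‖c (false, k)‖ ^ 2 := by
    rw [Fintype.sum_prod_type, Fintype.sum_bool]
  rw [e, e2]
  have h0 : ⟪lop b true (∑ k, c (true, k) • a k), lop b false (∑ k, c (false, k) • a k)⟫_ℂ = 0 :=
    inner_vop_vop_of_disjoint b _ _ (fun u v h => by simpa using (List.cons.inj h).1) _ _
  have h1 := norm_add_sq_eq_norm_sq_add_norm_sq_of_inner_eq_zero _ _ h0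
  rw [pow_two, h1, ← pow_two, ← pow_two]
  have h2 : ∀ i x, ‖lop b i x‖ = ‖x‖ := fun i x => norm_vop_apply b _ x
  rw [h2, h2]
  exact add_le_add (ha _) (ha _)

theorem kf_psi_le (n : ℕ) (X : H →L[ℂ] H) : kf n (psi b X) ≤ 2⁻¹ * kf (2 * n) X := by
  refine kf_le fun a b' ha hb => ?_
  have e : ∑ i, ⟪b' i, psi b X (a i)⟫_ℂ
      = (1 / 2 : ℂ) * ∑ p : Bool × Fin n, ⟪lop b p.1 (b' p.2), X (lop b p.1 (a p.2))⟫_ℂ := by
    rw [Fintype.sum_prod_type, Fintype.sum_bool, ← Finset.sum_add_distrib, Finset.mul_sum]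
    refine Finset.sum_congr rfl fun i _ => ?_
    rw [inner_psi, add_comm]
  rw [e, enorm_mul]
  have h1 : ‖(1 / 2 : ℂ)‖ₑ = 2⁻¹ := by
    rw [← ofReal_norm]
    have : ‖(1 / 2 : ℂ)‖ = (2 : ℝ)⁻¹ := by norm_num
    rw [this, ENNReal.ofReal_inv_of_pos (by norm_num)]
    simp
  rw [h1]
  refine mul_le_mul_right ?_ _
  exact le_kf' X (isContractive_lop b ha) (isContractive_lop b hb) (by simp)

theorem kf_psi_pow_le (m : ℕ) : ∀ (n : ℕ) (X : H →L[ℂ] H),
    kf n ((psi b ^ m) X) ≤ (2⁻¹ : ℝ≥0∞) ^ m * kf (2 ^ m * n) X := by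
  induction m with
  | zero => intro n X; simp
  | succ m ih =>
    intro n X
    rw [pow_succ', Module.End.mul_apply]
    refine (kf_psi_le b n _).trans ?_
    refine (mul_le_mul_right (ih (2 * n) X) _).trans (le_of_eq ?_)
    rw [← mul_assoc, pow_succ', pow_succ (2 : ℕ) m, mul_assoc (2 ^ m) 2 n]

theorem enorm_psi_pow_le (m : ℕ) (X : H →L[ℂ] H) :
    ‖(psi b ^ m) X‖ₑ ≤ (2⁻¹ : ℝ≥0∞) ^ m * kf (2 ^ m) X := by
  have := kf_psi_pow_le b m 1 X
  rw [mul_one] at this
  exact (norm_le_kf_one _).trans this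

theorem tsum_enorm_psi_pow_le (X : H →L[ℂ] H) : ∑' m, ‖(psi b ^ m) X‖ₑ ≤ nn X :=
  ENNReal.tsum_le_tsum fun m => enorm_psi_pow_le b m X

theorem summable_psi_pow {X : H →L[ℂ] H} (h : nn X < ⊤) : Summable fun m => ‖(psi b ^ m) X‖ := by
  rw [← tsum_enorm_ne_top_iff_summable_norm]
  exact ((tsum_enorm_psi_pow_le b X).trans_lt h).ne

theorem tendsto_psi_pow {X : H →L[ℂ] H} (h : nn X < ⊤) :
    Tendsto (fun m => ‖(psi b ^ m) X‖) atTop (𝓝 0) :=
  (summable_psi_pow b h).tendsto_atTop_zero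

theorem norm_psi_le (X : H →L[ℂ] H) : ‖psi b X‖ ≤ ‖X‖ := by
  rw [psi_apply, norm_smul]
  have h1 : ∀ i, ‖star (lop b i) * X * lop b i‖ ≤ ‖X‖ := by
    intro i
    calc ‖star (lop b i) * X * lop b i‖ ≤ ‖star (lop b i)‖ * ‖X‖ * ‖lop b i‖ :=
          (norm_mul_le _ _).trans (mul_le_mul_of_nonneg_right (norm_mul_le _ _) (norm_nonneg _))
      _ ≤ 1 * ‖X‖ * 1 := by
          have := norm_lop_le b i
          rw [norm_star]
          gcongr
      _ = ‖X‖ := by ring
  have h2 := norm_add_le (star (lop b false) * X * lop b false) (star (lop b true) * X * lop b true)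
  have h3 : ‖(1 / 2 : ℂ)‖ = 1 / 2 := by norm_num
  rw [h3]
  linarith [h1 false, h1 true]

theorem norm_psi_pow_le (m : ℕ) (X : H →L[ℂ] H) : ‖(psi b ^ m) X‖ ≤ ‖X‖ := by
  induction m with
  | zero => simp
  | succ m ih =>
    rw [pow_succ', Module.End.mul_apply]
    exact (norm_psi_le b _).trans ih

theorem sub_psi_pow (X : H →L[ℂ] H) (M : ℕ) :
    X - (psi b ^ M) X = ∑ m ∈ Finset.range M, (psi b ^ m) (X - psi b X) := by
  induction M with
  | zero => simp
  | succ M ih =>
    rw [Finset.sum_range_succ, ← ih, map_sub, pow_succ, Module.End.mul_apply]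
    abel

end Pool.Agent.W680.DS
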